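import Mathlib

/-! Commutative algebra tools: dimension, derivations, specialisation, lines on hypersurfaces. -/

namespace Pool.Agent.Lib.ZS

open Polynomial

/-- Fewer polynomials than variables, all vanishing at the origin, have another common zero. -/
theorem exists_other_zero {Ω σ : Type*} [Field Ω] [IsAlgClosed Ω] [Finite σ]
    (s : Finset (MvPolynomial σ Ω)) (h0 : ∀ p ∈ s, MvPolynomial.aeval (0 : σ → Ω) p = 0)
    (hc : s.card < Nat.card σ) :
    ∃ v : σ → Ω, v ≠ 0 ∧ ∀ p ∈ s, MvPolynomial.aeval v p = 0 := by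
  by_contra! h
  have hZ : MvPolynomial.zeroLocus Ω (Ideal.span (s : Set (MvPolynomial σ Ω))) = {0} := by
    rw [MvPolynomial.zeroLocus_span]
    refine Set.eq_singleton_iff_unique_mem.2 ⟨h0, fun v hv => by_contra fun hv0 => ?_⟩
    obtain ⟨p, hp, e⟩ := h v hv0
    exact e (hv p hp)
  have hr := MvPolynomial.vanishingIdeal_zeroLocus_eq_radical (K := Ω)
    (Ideal.span (s : Set (MvPolynomial σ Ω)))
  rw [hZ] at hr
  have hm : (MvPolynomial.vanishingIdeal Ω {(0 : σ → Ω)}).height ≤ s.card :=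
    Ideal.height_le_card_of_mem_minimalPrimes_span_finset (by
      rw [← Ideal.radical_minimalPrimes, ← hr, Ideal.minimalPrimes_eq_subsingleton_self]; rfl)
  have hd : ringKrullDim (MvPolynomial σ Ω) ≤ (s.card : ℕ∞) := by
    refine (ringKrullDim_le_iff_isMaximal_height_le _).2 fun m hmax => ?_
    obtain ⟨x, rfl⟩ := MvPolynomial.isMaximal_iff_eq_vanishingIdeal_singleton.1 hmax
    let e : MvPolynomial σ Ω ≃ₐ[Ω] MvPolynomial σ Ω := AlgEquiv.ofAlgHom
      (MvPolynomial.aeval fun i => MvPolynomial.X i + MvPolynomial.C (x i))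
      (MvPolynomial.aeval fun i => MvPolynomial.X i - MvPolynomial.C (x i))
      (by ext i : 1; simp) (by ext i : 1; simp)
    have : MvPolynomial.vanishingIdeal Ω {x} =
        (MvPolynomial.vanishingIdeal Ω {(0 : σ → Ω)}).comap e.toRingEquiv := by
      have h1 : (MvPolynomial.aeval (0 : σ → Ω)).comp (e : MvPolynomial σ Ω →ₐ[Ω] _) =
          MvPolynomial.aeval x := by ext i; simp [e]
      ext p
      rw [Ideal.mem_comap, MvPolynomial.mem_vanishingIdeal_singleton_iff,
        MvPolynomial.mem_vanishingIdeal_singleton_iff, ← h1]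
      rfl
    rw [this, RingEquiv.height_comap]
    exact_mod_cast hm
  rw [MvPolynomial.ringKrullDim_of_isNoetherianRing, ringKrullDim_eq_zero_of_field, zero_add] at hd
  exact absurd (by exact_mod_cast hd) (not_le.2 hc)

/-- Evaluation of integer polynomials. -/
def ev {S ι : Type*} [CommRing S] (z : ι → S) : MvPolynomial ι ℤ →+* S :=
  MvPolynomial.eval₂Hom (Int.castRingHom S) z

@[simp] theorem ev_X {S ι : Type*} [CommRing S] (z : ι → S) (i : ι) :
    ev z (MvPolynomial.X i) = z i := MvPolynomial.eval₂Hom_X' _ _ _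

theorem ev_monomial {S ι : Type*} [CommRing S] (z : ι → S) (m : ι →₀ ℕ) (a : ℤ) :
    ev z (MvPolynomial.monomial m a) = a * ∏ i ∈ m.support, z i ^ m i :=
  MvPolynomial.eval₂Hom_monomial _ _ _ _

theorem map_ev {S S' ι : Type*} [CommRing S] [CommRing S'] (f : S →+* S') (z : ι → S)
    (F : MvPolynomial ι ℤ) : f (ev z F) = ev (fun i => f (z i)) F :=
  RingHom.congr_fun (f := f.comp (ev z))
    (MvPolynomial.ringHom_ext' (RingHom.ext_int _ _) fun i => by simp) F

theorem aeval_eq_ev {S ι : Type*} [CommRing S] [Algebra ℤ S] (z : ι → S) (F : MvPolynomial ι ℤ) :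
    MvPolynomial.aeval z F = ev z F :=
  RingHom.congr_fun (f := (MvPolynomial.aeval z : MvPolynomial ι ℤ →ₐ[ℤ] S).toRingHom)
    (MvPolynomial.ringHom_ext' (RingHom.ext_int _ _) fun i => by simp) F

/-- Chain rule. -/
theorem chain {S ι : Type*} [CommRing S] [Fintype ι] (δ : S →+ S)
    (hδ : ∀ a b, δ (a * b) = a * δ b + b * δ a) (z : ι → S) (F : MvPolynomial ι ℤ) :
    δ (ev z F) = ∑ i, ev z (MvPolynomial.pderiv i F) * δ (z i) := by
  classical
  have h1 : δ 1 = 0 := by simpa using hδ 1 1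
  induction F using MvPolynomial.induction_on with
  | C a =>
    have : δ (a : S) = 0 := by rw [← zsmul_one, map_zsmul, h1, smul_zero]
    simp [this]
  | add p q hp hq => simp [hp, hq, add_mul, Finset.sum_add_distrib]
  | mul_X p j hp =>
    simp only [map_mul, ev_X, hδ, hp, Derivation.leibniz, MvPolynomial.pderiv_X,
      smul_eq_mul, map_add, add_mul, Finset.sum_add_distrib, Finset.mul_sum, Pi.single_apply,
      mul_one, mul_zero, apply_ite, map_zero, ite_mul, zero_mul, Finset.sum_ite_eq,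
      Finset.mem_univ, if_true, mul_assoc]

/-- Derivations with prescribed values at independent variables. -/
theorem exists_der {ι L Ω : Type*} [Field L] [Algebra (MvPolynomial ι ℤ) L]
    [IsFractionRing (MvPolynomial ι ℤ) L] [Field Ω] [Algebra L Ω] [Algebra (MvPolynomial ι ℤ) Ω]
    [IsScalarTower (MvPolynomial ι ℤ) L Ω] [Algebra.IsSeparable L Ω] (p : ι → Ω) :
    ∃ δ : Ω →+ Ω, (∀ a b, δ (a * b) = a * δ b + b * δ a) ∧
      ∀ i, δ (algebraMap (MvPolynomial ι ℤ) Ω (MvPolynomial.X i)) = p i := by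
  have := Algebra.FormallySmooth.of_isLocalization (R := MvPolynomial ι ℤ) (Rₘ := L)
    (nonZeroDivisors _)
  have := Algebra.FormallyEtale.of_isSeparable L Ω
  have := Algebra.FormallySmooth.comp (MvPolynomial ι ℤ) L Ω
  let ψ : MvPolynomial ι ℤ →+* DualNumber Ω := (MvPolynomial.aeval fun i =>
    TrivSqZeroExt.inl (algebraMap (MvPolynomial ι ℤ) Ω (MvPolynomial.X i)) +
      TrivSqZeroExt.inr (p i)).toRingHom
  let _ : Algebra (MvPolynomial ι ℤ) (DualNumber Ω) := ψ.toAlgebra
  let g : DualNumber Ω →ₐ[MvPolynomial ι ℤ] Ω :=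
    { (TrivSqZeroExt.fstHom Ω Ω Ω).toRingHom with
      commutes' := fun a => RingHom.congr_fun (f := (TrivSqZeroExt.fstHom Ω Ω Ω).toRingHom.comp ψ)
        (g := algebraMap _ Ω) (MvPolynomial.ringHom_ext' (RingHom.ext_int _ _) fun i => by
          simp [ψ]) a }
  have hg : ∀ a, g a = a.fst := fun _ => rfl
  have hs : Function.Surjective g := fun a => ⟨TrivSqZeroExt.inl a, rfl⟩
  have hn : IsNilpotent (RingHom.ker (g : DualNumber Ω →+* Ω)) := ⟨2, by
    rw [Submodule.pow_succ, Submodule.pow_one, Ideal.zero_eq_bot, eq_bot_iff, Ideal.mul_le]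
    intro a ha b hb
    have ha' : a.fst = 0 := ha
    have hb' : b.fst = 0 := hb
    exact TrivSqZeroExt.ext (by simp [ha']) (by simp [ha', hb'])⟩
  let σ := Algebra.FormallySmooth.liftOfSurjective (AlgHom.id _ Ω) g hs hn
  have hσ : ∀ a, (σ a).fst = a :=
    Algebra.FormallySmooth.liftOfSurjective_apply (AlgHom.id _ Ω) g hs hn
  refine ⟨{ toFun := fun a => (σ a).snd, map_zero' := by simp, map_add' := by simp },
    fun a b => by simp [hσ, mul_comm], fun i => ?_⟩
  change (σ _).snd = _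
  rw [σ.commutes]
  change (ψ _).snd = _
  simp [ψ]

theorem ext_hom {A O k : Type*} [CommRing A] [CommRing O] [IsDomain O] [Algebra A O]
    [Algebra.IsIntegral A O] [Field k] [IsAlgClosed k] (inj : Function.Injective (algebraMap A O))
    (φ : A →+* k) : ∃ ψ : O →+* k, ∀ a, ψ (algebraMap A O a) = φ a := by
  have := RingHom.ker_isPrime φ
  obtain ⟨Q, hQ, e⟩ := Ideal.exists_ideal_over_prime_of_isIntegral_of_isDomain (S := O)
    (RingHom.ker φ) (by rw [(RingHom.injective_iff_ker_eq_bot _).1 inj]; exact bot_le)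
  have : Q.LiesOver (RingHom.ker φ) := ⟨e.symm⟩
  let _ : Algebra (A ⧸ RingHom.ker φ) k := (RingHom.kerLift φ).toAlgebra
  have : FaithfulSMul (A ⧸ RingHom.ker φ) k :=
    (faithfulSMul_iff_algebraMap_injective _ _).2 (RingHom.kerLift_injective φ)
  have : Module.IsTorsionFree (A ⧸ RingHom.ker φ) (O ⧸ Q) := FaithfulSMul.to_isTorsionFree _ _
  let l : (O ⧸ Q) →ₐ[A ⧸ RingHom.ker φ] k := IsAlgClosed.lift
  exact ⟨l.toRingHom.comp (Ideal.Quotient.mk Q), fun a => l.commutes (Ideal.Quotient.mk _ a)⟩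

/-- Specialisation of finitely many algebraic elements, as the graph of a partial homomorphism. -/
theorem exists_graph {P Ω k : Type*} [CommRing P] [IsDomain P] [Field Ω] [Algebra P Ω]
    [Algebra.IsAlgebraic P Ω] (inj : Function.Injective (algebraMap P Ω)) [Field k] [IsAlgClosed k]
    (T : Finset Ω) : ∃ h : P, h ≠ 0 ∧ ∀ φ : P →+* k, φ h ≠ 0 → ∃ Γ : Subring (Ω × k),
      (∀ b, (0, b) ∈ Γ → b = 0) ∧ (∀ a, (algebraMap P Ω a, φ a) ∈ Γ) ∧ ∀ z ∈ T, ∃ b, (z, b) ∈ Γ := by
  obtain ⟨h, h0, hi⟩ := Algebra.IsAlgebraic.exists_integral_multiples P T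
  refine ⟨h, h0, fun φ hφ => ?_⟩
  obtain ⟨ψ, hψ⟩ := ext_hom (O := integralClosure P Ω)
    (fun a b e => inj (congrArg Subtype.val e)) φ
  refine ⟨{ carrier := {z | ∃ (o : integralClosure P Ω) (c : P), φ c ≠ 0 ∧
              algebraMap P Ω c * z.1 = o ∧ φ c * z.2 = ψ o}
            mul_mem' := ?_, add_mem' := ?_, neg_mem' := ?_
            one_mem' := ⟨1, 1, by simp⟩, zero_mem' := ⟨0, 1, by simp⟩ }, ?_, fun a => ?_,
    fun z hz => ⟨ψ ⟨_, hi z hz⟩ / φ h, ⟨_, hi z hz⟩, h, hφ, (Algebra.smul_def _ _).symm, ?_⟩⟩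
  · rintro z z' ⟨o, c, h1, h2, h3⟩ ⟨o', c', h1', h2', h3'⟩
    refine ⟨o * o', c * c', by simp [h1, h1'], ?_, ?_⟩
    · simp only [map_mul, Prod.fst_mul, MulMemClass.coe_mul, ← h2, ← h2']; ring
    · simp only [map_mul, Prod.snd_mul, ← h3, ← h3']; ring
  · rintro z z' ⟨o, c, h1, h2, h3⟩ ⟨o', c', h1', h2', h3'⟩
    refine ⟨o * algebraMap P _ c' + o' * algebraMap P _ c, c * c', by simp [h1, h1'], ?_, ?_⟩
    · simp only [map_mul, Prod.fst_add, MulMemClass.coe_mul, AddMemClass.coe_add, ← h2, ← h2',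
        SubalgebraClass.coe_algebraMap]
      ring
    · simp only [map_mul, map_add, Prod.snd_add, ← h3, ← h3', hψ]; ring
  · rintro z ⟨o, c, h1, h2, h3⟩
    exact ⟨-o, c, h1, by simp [← h2], by simp [← h3]⟩
  · rintro b ⟨o, c, h1, h2, h3⟩
    have : o = 0 := Subtype.ext (by simpa using h2.symm)
    simpa [this, h1] using h3
  · exact ⟨algebraMap P _ a, 1, by simp, by simp, by simp [hψ]⟩
  · exact mul_div_cancel₀ _ hφ

/-- A space of polynomials without common root and closed under division by `X`. -/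
theorem X_pow_mem {E : Type*} [Field E] [IsAlgClosed E] (W : Submodule E E[X])
    (hdiv : ∀ a ∈ W, a.coeff 0 = 0 → ∃ b ∈ W, a = X * b) (hroot : ∀ τ, ∃ a ∈ W, a.eval τ ≠ 0)
    (k : ℕ) (hk : ∃ a ∈ W, a ≠ 0 ∧ a.natDegree = k) : ∀ f : E[X], f.natDegree ≤ k → f ∈ W := by
  classical
  have hex : ∃ n, ∃ b ∈ W, b ≠ 0 ∧ b.natDegree = n := ⟨k, hk⟩
  obtain ⟨b, hb, hb0, hbn⟩ := Nat.find_spec hex
  have hmin : ∀ a ∈ W, a ≠ 0 → b.natDegree ≤ a.natDegree := fun a ha h0 =>
    hbn ▸ Nat.find_min' hex ⟨a, ha, h0, rfl⟩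
  have hc : b.coeff 0 ≠ 0 := fun h => by
    obtain ⟨c, hc, e⟩ := hdiv b hb h
    have h0 : c ≠ 0 := by rintro rfl; exact hb0 (by simpa using e)
    have := hmin c hc h0
    rw [e, natDegree_X_mul h0] at this
    omega
  have hdvd : ∀ n, ∀ a ∈ W, a.natDegree = n → b ∣ a := fun n => by
    induction n using Nat.strong_induction_on with
    | _ n ih =>
    intro a ha hn
    rcases eq_or_ne a 0 with rfl | h0
    · exact dvd_zero _
    obtain ⟨c, hc', e⟩ := hdiv _ (W.sub_mem ha (W.smul_mem (a.coeff 0 / b.coeff 0) hb))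
      (by simp [hc])
    have h1 : b ∣ c := by
      rcases eq_or_ne c 0 with rfl | hc0
      · exact dvd_zero _
      refine ih _ ?_ c hc' rfl
      have := (natDegree_sub_le a ((a.coeff 0 / b.coeff 0) • b)).trans
        (max_le le_rfl ((natDegree_smul_le _ _).trans (hmin a ha h0)))
      rw [e, natDegree_X_mul hc0] at this
      omega
    rw [eq_add_of_sub_eq e]
    exact (h1.mul_left _).add (dvd_smul_of_dvd _ dvd_rfl)
  have h1 : (1 : E[X]) ∈ W := by
    have hd : b.degree = 0 := by_contra fun h => by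
      obtain ⟨τ, hτ⟩ := IsAlgClosed.exists_root b h
      obtain ⟨a, ha, e⟩ := hroot τ
      exact e (hτ.dvd (hdvd _ a ha rfl))
    have := W.smul_mem (b.coeff 0)⁻¹ hb
    rwa [eq_C_of_degree_eq_zero hd, coeff_C_zero, smul_C, smul_eq_mul, inv_mul_cancel₀ hc] at this
  clear hex hbn
  induction k with
  | zero =>
    intro f hf
    rw [eq_C_of_natDegree_le_zero hf, ← mul_one (C _), ← smul_eq_C_mul]
    exact W.smul_mem _ h1
  | succ k ih =>
    intro f hf
    obtain ⟨a, ha, ha0, hn⟩ := hk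
    obtain ⟨c, hc', e⟩ := hdiv _ (W.sub_mem ha (W.smul_mem (a.coeff 0) h1)) (by simp)
    have h2 : (X * c).natDegree = k + 1 := by
      rw [← e, smul_eq_C_mul, mul_one, natDegree_sub_C, hn]
    have hc0 : c ≠ 0 := by rintro rfl; simp at h2
    rw [natDegree_X_mul hc0] at h2
    have h3 : a.coeff (k + 1) ≠ 0 := hn ▸ leadingCoeff_ne_zero.2 ha0
    have h4 := ih ⟨c, hc', hc0, by omega⟩ (f - (f.coeff (k + 1) / a.coeff (k + 1)) • a) (by
      rw [natDegree_le_iff_coeff_eq_zero]
      intro j hj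
      rcases (Nat.succ_le_of_lt hj).eq_or_lt with rfl | hj
      · simp [h3]
      · simp [coeff_eq_zero_of_natDegree_lt (hf.trans_lt hj),
          coeff_eq_zero_of_natDegree_lt (hn.trans_lt hj)])
    simpa using W.add_mem h4 (W.smul_mem (f.coeff (k + 1) / a.coeff (k + 1)) ha)

section Line
variable {S ι : Type*} [CommRing S]

/-- The restriction of `F` to the line `x + t v`. -/
noncomputable def lineP (F : MvPolynomial ι ℤ) (x v : ι → S) : S[X] :=
  ev (fun i => C (x i) + C (v i) * X) F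

theorem eval_lineP (F : MvPolynomial ι ℤ) (x v : ι → S) (t : S) :
    (lineP F x v).eval t = ev (fun i => x i + v i * t) F := by
  refine (map_ev (evalRingHom t) (fun i => C (x i) + C (v i) * X) F).trans ?_
  simp

theorem map_lineP {S' : Type*} [CommRing S'] (f : S →+* S') (F : MvPolynomial ι ℤ) (x v : ι → S) :
    (lineP F x v).map f = lineP F (fun i => f (x i)) fun i => f (v i) := by
  refine (map_ev (mapRingHom f) (fun i => C (x i) + C (v i) * X) F).trans ?_
  simp [lineP]

theorem lineP_top {F : MvPolynomial ι ℤ} {d : ℕ} (hF : F.IsHomogeneous d) (x v : ι → S) :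
    (lineP F x v).natDegree ≤ d ∧ (lineP F x v).coeff d = ev v F := by
  classical
  have hl : ∀ i, (C (x i) + C (v i) * X).natDegree ≤ 1 := fun i => by compute_degree
  have key : ∀ (m : ι →₀ ℕ) (s : Finset ι),
      (∏ i ∈ s, (C (x i) + C (v i) * X) ^ m i).natDegree ≤ ∑ i ∈ s, m i ∧
      (∏ i ∈ s, (C (x i) + C (v i) * X) ^ m i).coeff (∑ i ∈ s, m i) = ∏ i ∈ s, v i ^ m i := by
    intro m s
    induction s using Finset.induction_on with
    | empty => simp
    | insert a s ha ih =>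
      have h1 := natDegree_pow_le_of_le (m a) (hl a)
      have h2 := coeff_pow_of_natDegree_le (m := m a) (hl a)
      rw [mul_one] at h1 h2
      rw [Finset.prod_insert ha, Finset.prod_insert ha, Finset.sum_insert ha,
        coeff_mul_add_eq_of_natDegree_le h1 ih.1, ih.2, h2]
      exact ⟨natDegree_mul_le_of_le h1 ih.1, by simp [coeff_C]⟩
  rw [lineP, F.as_sum, map_sum, map_sum, finsetSum_coeff]
  refine ⟨natDegree_sum_le_of_forall_le _ _ fun m hm => ?_, Finset.sum_congr rfl fun m hm => ?_⟩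
  all_goals rw [ev_monomial, hF.degree_eq_sum_deg_support hm, ← C_eq_intCast]
  · exact (natDegree_C_mul_le _ _).trans (key m _).1
  · rw [coeff_C_mul, ev_monomial, (key m _).2]

theorem ev_smul {F : MvPolynomial ι ℤ} {d : ℕ} (hF : F.IsHomogeneous d) (c : S) (z : ι → S) :
    ev (fun i => c * z i) F = c ^ d * ev z F := by
  rw [F.as_sum, map_sum, map_sum, Finset.mul_sum]
  refine Finset.sum_congr rfl fun m hm => ?_
  rw [ev_monomial, ev_monomial, hF.degree_eq_sum_deg_support hm]
  simp only [mul_pow, Finset.prod_mul_distrib, Finset.prod_pow_eq_pow_sum]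
  ring

theorem derivative_lineP [Fintype ι] (F : MvPolynomial ι ℤ) (x v : ι → S) :
    derivative (lineP F x v) = ∑ i, lineP (MvPolynomial.pderiv i F) x v * C (v i) := by
  refine (chain (derivative : S[X] →ₗ[S] S[X]).toAddMonoidHom
    (fun a b => by simp [derivative_mul]; ring) (fun i => C (x i) + C (v i) * X) F).trans ?_
  simp [lineP]

theorem euler [Fintype ι] {F : MvPolynomial ι ℤ} {d : ℕ} (hF : F.IsHomogeneous d) (z : ι → S) :
    ∑ i, z i * ev z (MvPolynomial.pderiv i F) = d * ev z F := by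
  simpa using congrArg (ev z) hF.sum_X_mul_pderiv

end Line

end Pool.Agent.Lib.ZS
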