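import Pool.Agent.Lib.MP_7610b6_lc.LGP
import Pool.Agent.Lib.MP_7610b6_lc.Solv

/-! A radically closed field of algebraic numbers is dense at every place. -/

namespace Pool.Agent.Lib.ZS

open Polynomial Pool.Agent.Lib.MP_7610b6_lc

variable {K : IntermediateField ℚ Qb}

lemma near_root (w : Place) (s : Multiset Qb) (x : Qb) {ε : ℝ} (hε : 0 ≤ ε)
    (h : w.N (s.map (x - ·)).prod < ε ^ s.card) : ∃ r ∈ s, w.N (x - r) < ε := by
  by_contra hc
  push Not at hc
  refine absurd h (not_lt.2 ?_)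
  clear h
  induction s using Multiset.induction_on with
  | empty => simp
  | cons a s ih =>
    rw [Multiset.map_cons, Multiset.prod_cons, map_mul, Multiset.card_cons, pow_succ']
    exact mul_le_mul (hc a (by simp)) (ih fun r hr => hc r (by simp [hr])) (pow_nonneg hε _)
      (w.N.nonneg _)

lemma eval_eq_prod (f : Qb[X]) (x : Qb) :
    f.eval x = f.leadingCoeff * (f.roots.map (x - ·)).prod := by
  conv_lhs => rw [(IsAlgClosed.splits f).eq_prod_roots]
  simp [eval_multiset_prod]

lemma near_radical (hK : RadCl K) (w : Place) {x b : Qb} (hb : b ∈ K) {n : ℕ} (hn : n ≠ 0) {ε : ℝ}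
    (hε : 0 ≤ ε) (h : w.N (x ^ n - b) < ε ^ n) : ∃ y ∈ K, w.N (x - y) < ε := by
  have hm : (X ^ n - C b : Qb[X]).Monic := monic_X_pow_sub_C b hn
  have h1 := eval_eq_prod (X ^ n - C b) x
  rw [hm.leadingCoeff, one_mul] at h1
  obtain ⟨r, hr, h2⟩ := near_root w (X ^ n - C b : Qb[X]).roots x hε (by
    rw [← h1, IsAlgClosed.card_roots_eq_natDegree, natDegree_X_pow_sub_C]
    simpa using h)
  refine ⟨r, hK r n hn ?_, h2⟩
  have := (mem_roots hm.ne_zero).1 hr
  simp only [IsRoot, eval_sub, eval_pow, eval_X, eval_C, sub_eq_zero] at this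
  rwa [this]

lemma exists_closer (hK : RadCl K) (w : Place) {a : Qb} (ha : a ≠ 0) :
    ∃ b ∈ K, w.N (a - b) < w.N a := by
  obtain ⟨d, hd, hd0, h⟩ := exists_unif hK w ha
  have hu : w.N (a / d) = 1 := by rw [map_div₀, h w rfl, div_self (w.N.pos ha).ne']
  obtain ⟨b, -, c, -, hc0, e, hm⟩ := exists_frac (K := ⊤) (fun _ _ _ _ => trivial)
    (z := a / d) trivial
  have hbc : w.N b = w.N c := by rw [← e, map_mul, hu, one_mul]
  have hc1 : w.N c = 1 := by have := hm w; rwa [hbc, max_self] at this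
  have hp : (w.p : ℤ) ≠ 0 := by exact_mod_cast w.hp.ne_zero
  have key : ∀ z : Qb, (∀ w' : Place, w'.N z ≤ 1) → w.N z = 1 →
      ∃ n, n ≠ 0 ∧ ∀ m : ℕ, w.N ((z ^ n) ^ m - 1) < 1 := fun z hz h1 => by
    obtain ⟨n, hn, h2⟩ := exists_period (integral_of_le_one hz) hp
    have h3 : w.N (z ^ n - 1) < 1 := (h2 w h1).trans_lt (by simpa using w.N_p_lt_one)
    refine ⟨n, hn, fun m => ?_⟩
    induction m with
    | zero => simp
    | succ m ih =>
      have : (z ^ n) ^ (m + 1) - 1 = z ^ n * ((z ^ n) ^ m - 1) + (z ^ n - 1) := by ring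
      rw [this]
      exact w.add_lt_of (by rw [map_mul, map_pow, h1, one_pow, one_mul]; exact ih) h3
  obtain ⟨n, hn, h1⟩ := key b (fun w' => (le_max_left _ _).trans (hm w').le) (hbc.trans hc1)
  obtain ⟨m, hm', h2⟩ := key c (fun w' => (le_max_right _ _).trans (hm w').le) hc1
  obtain ⟨y, hy, h3⟩ := near_radical hK w (x := a / d) K.one_mem (mul_ne_zero hn hm') zero_le_one
    (by
      have : ((a / d) ^ (n * m) - 1) * c ^ (n * m) = ((b ^ n) ^ m - 1) - ((c ^ m) ^ n - 1) := by
        rw [sub_mul, ← mul_pow, e]; ring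
      have h4 := w.sub_lt_of (h1 m) (h2 n)
      rw [← this, map_mul, map_pow, hc1, one_pow, mul_one] at h4
      rwa [one_pow])
  refine ⟨d * y, K.mul_mem hd hy, ?_⟩
  have : a - d * y = d * (a / d - y) := by field_simp
  rw [this, map_mul, h w rfl]
  exact mul_lt_of_lt_one_right (w.N.pos ha) h3

/-- The closure of `K` at `w`. -/
noncomputable def clos (K : IntermediateField ℚ Qb) (w : Place) : IntermediateField ℚ Qb :=
  Subalgebra.toIntermediateField
    { carrier := {x | ∀ ε > 0, ∃ y ∈ K, w.N (x - y) < ε}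
      mul_mem' := fun {x x'} hx hx' ε hε => by
        set c := 1 + w.N x + w.N x' with hc
        have h0 := w.N.nonneg x
        have h0' := w.N.nonneg x'
        have hc0 : 0 < c := by positivity
        have hδ : 0 < min 1 (ε / c) := by positivity
        obtain ⟨y, hy, e⟩ := hx _ hδ
        obtain ⟨y', hy', e'⟩ := hx' _ hδ
        refine ⟨y * y', K.mul_mem hy hy', ?_⟩
        have key : ∀ a b : Qb, w.N a < c → w.N b < min 1 (ε / c) → w.N (a * b) < ε :=
          fun a b ha hb => by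
            rw [map_mul]
            have := (lt_div_iff₀' hc0).1 (hb.trans_le (min_le_right _ _))
            exact (mul_le_mul_of_nonneg_right ha.le (w.N.nonneg _)).trans_lt this
        have : x * x' - y * y' = x * (x' - y') + (x' - (x' - y')) * (x - y) := by ring
        rw [this]
        exact w.add_lt_of (key _ _ (by linarith) e') (key _ _ (w.sub_lt_of (by linarith)
          ((e'.trans_le (min_le_left _ _)).trans_le (by linarith))) e)
      add_mem' := fun {x x'} hx hx' ε hε => by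
        obtain ⟨y, hy, e⟩ := hx _ hε
        obtain ⟨y', hy', e'⟩ := hx' _ hε
        exact ⟨y + y', K.add_mem hy hy', by rw [add_sub_add_comm]; exact w.add_lt_of e e'⟩
      algebraMap_mem' := fun q ε hε => ⟨_, K.algebraMap_mem q, by simpa using hε⟩ }
    fun x hx => Subalgebra.inv_mem_of_algebraic _ (x := ⟨x, hx⟩) (Algebra.IsAlgebraic.isAlgebraic _)

lemma mem_clos {w : Place} {x : Qb} : x ∈ clos K w ↔ ∀ ε > 0, ∃ y ∈ K, w.N (x - y) < ε := Iff.rfl

lemma le_clos (w : Place) : K ≤ clos K w := fun x hx ε hε => ⟨x, hx, by simpa using hε⟩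

lemma clos_closed {w : Place} {x : Qb} (h : ∀ ε > 0, ∃ y ∈ clos K w, w.N (x - y) < ε) :
    x ∈ clos K w := fun ε hε => by
  obtain ⟨y, hy, e⟩ := h ε hε
  obtain ⟨z, hz, e'⟩ := hy ε hε
  exact ⟨z, hz, by simpa using w.add_lt_of e e'⟩

lemma radCl_clos (hK : RadCl K) (w : Place) : RadCl (clos K w) := fun x n hn hx ε hε => by
  obtain ⟨b, hb, e⟩ := hx _ (pow_pos hε n)
  exact near_radical hK w hb hn hε.le e

lemma eq_of_isEquiv {M : Type*} [Field M] {v v' : AbsoluteValue M ℝ} {a : M} (h0 : 0 < v a)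
    (h1 : v a < 1) (h2 : v' a = v a) (h : v.IsEquiv v') : v = v' := by
  obtain ⟨c, hc, h3⟩ := AbsoluteValue.isEquiv_iff_exists_rpow_eq.1 h
  have h4 := congrArg Real.log (congrFun h3 a)
  rw [Real.log_rpow h0, h2] at h4
  have hc1 : c = 1 := mul_right_cancel₀ (Real.log_neg h0 h1).ne (by rw [h4, one_mul])
  ext x
  simpa [hc1] using congrFun h3 x

section Gal
variable {F : IntermediateField ℚ Qb} (M : IntermediateField F Qb) [FiniteDimensional F M]
  [IsGalois F M] (w : Place)

/-- Over a closed field the place is invariant under the Galois group. -/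
lemma invariant (hF : ∀ x : Qb, (∀ ε > 0, ∃ y ∈ F, w.N (x - y) < ε) → x ∈ F) (σ : M ≃ₐ[F] M)
    (a : M) : w.N (σ a : M) = w.N a := by
  classical
  let v : (M ≃ₐ[F] M) → AbsoluteValue M ℝ := fun τ =>
    w.N.comp (f := (algebraMap M Qb).comp (τ : M →+* M)) (RingHom.injective _)
  have hv : ∀ τ x, v τ x = w.N (τ x : M) := fun _ _ => rfl
  have hp : ∀ τ, v τ (w.p : M) = w.N (w.p : Qb) := fun τ => by rw [hv]; simp
  let D : Subgroup (M ≃ₐ[F] M) :=
    { carrier := {τ | ∀ x : M, w.N (τ x : M) = w.N x}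
      mul_mem' := fun h h' x => (h _).trans (h' x)
      one_mem' := fun _ => rfl
      inv_mem' := fun {τ} h x => by rw [← h]; simp }
  suffices h : IntermediateField.fixedField D = ⊥ by
    have h1 := IntermediateField.fixingSubgroup_fixedField D
    rw [h, IntermediateField.fixingSubgroup_bot] at h1
    exact (h1 ▸ Subgroup.mem_top σ : σ ∈ D) a
  refine eq_bot_iff.2 fun x hx => ?_
  have hxD : ∀ τ ∈ D, τ x = x := fun τ hτ => hx ⟨τ, hτ⟩
  have : Finite (Set.range v) := (Set.finite_range v).to_subtype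
  have := Fintype.ofFinite (Set.range v)
  have hd := AbsoluteValue.denseRange_algebraMap_pi
    (v := fun t : Set.range v => (t : AbsoluteValue M ℝ))
    (by
      rintro ⟨_, τ, rfl⟩
      exact ⟨(w.p : M), by exact_mod_cast w.hp.ne_zero, (hp τ ▸ w.N_p_lt_one).ne⟩)
    (by
      rintro ⟨_, τ, rfl⟩ ⟨_, τ', rfl⟩ hne he
      exact hne (Subtype.ext (eq_of_isEquiv (a := (w.p : M)) (hp τ ▸ w.N_p_pos)
        (hp τ ▸ w.N_p_lt_one) ((hp _).trans (hp _).symm) he)))
  set m := (Finset.univ.filter (· ∈ D)).card with hm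
  have hm0 : (m : Qb) ≠ 0 := by
    exact_mod_cast (Finset.card_pos.2 ⟨1, by simp⟩).ne'
  have hmx : (m : Qb) * x ∈ F := hF _ fun ε hε => by
    set c := 1 + ∑ τ, v τ x with hc
    have hc1 : ∀ τ, v τ x < c := fun τ =>
      (Finset.single_le_sum (f := fun τ => v τ x) (fun τ _ => (v τ).nonneg x)
        (Finset.mem_univ τ)).trans_lt (lt_one_add _)
    have hc0 : 0 < c := ((v 1).nonneg x).trans_lt (hc1 1)
    obtain ⟨e, he⟩ := Metric.denseRange_iff.1 hd
      (fun t => WithAbs.toAbs _ (if t.1 = v 1 then (1 : M) else 0)) (ε / c) (by positivity)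
    have he' : ∀ τ, v τ (e - if v τ = v 1 then (1 : M) else 0) < ε / c := fun τ => by
      have h2 := (dist_le_pi_dist _ _ (⟨v τ, τ, rfl⟩ : Set.range v)).trans_lt he
      rw [dist_comm, dist_eq_norm] at h2
      exact h2
    refine ⟨(Algebra.trace F M (x * e) : F), (Algebra.trace F M (x * e)).2, ?_⟩
    have h3 := congrArg (algebraMap M Qb) (trace_eq_sum_automorphisms (K := F) (x * e))
    have h4 : (m : Qb) * x = ∑ τ : M ≃ₐ[F] M,
        ((τ (x * if v τ = v 1 then (1 : M) else 0) : M) : Qb) := by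
      rw [hm, Finset.card_filter, Nat.cast_sum, Finset.sum_mul]
      refine Finset.sum_congr rfl fun τ _ => ?_
      have : v τ = v 1 ↔ τ ∈ D := ⟨fun h y => congrArg (· y) h, fun h => by ext y; exact h y⟩
      by_cases hτ : τ ∈ D
      · simp [this, hτ, hxD τ hτ]
      · simp [this, hτ]
    rw [map_sum] at h3
    rw [h4, show ((Algebra.trace F M (x * e) : F) : Qb) = _ from h3, ← Finset.sum_sub_distrib]
    refine w.sum_lt _ _ hε fun τ _ => ?_
    have h5 : v τ (x * (e - if v τ = v 1 then (1 : M) else 0)) < ε := by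
      rw [map_mul]
      exact (mul_le_mul_of_nonneg_right (hc1 τ).le ((v τ).nonneg _)).trans_lt
        ((lt_div_iff₀' hc0).1 (he' τ))
    rw [hv, mul_sub, map_sub] at h5
    rw [w.N.map_sub]
    exact h5
  have : (x : Qb) ∈ F := by
    simpa [hm0] using F.mul_mem (F.inv_mem (natCast_mem F m)) hmx
  exact ⟨⟨x, this⟩, Subtype.ext rfl⟩

end Gal

/-- A radically closed field has no proper Galois extension of prime power degree. -/
lemma trivial_of_pgroup {F M : Type*} [Field F] [Field M] [Algebra F M] [FiniteDimensional F M]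
    [IsGalois F M] {p k : ℕ} (hp : p.Prime) {ζ : F} (hζ : IsPrimitiveRoot ζ p)
    (hF : ∀ x : M, x ^ p ∈ Set.range (algebraMap F M) → x ∈ Set.range (algebraMap F M))
    (h : Nat.card (M ≃ₐ[F] M) = p ^ k) : k = 0 := by
  by_contra hk
  obtain ⟨k, rfl⟩ := Nat.exists_eq_succ_of_ne_zero hk
  have : Fact p.Prime := ⟨hp⟩
  obtain ⟨H, hH⟩ := Sylow.exists_subgroup_card_pow_prime (G := M ≃ₐ[F] M) p (n := k)
    (h ▸ pow_dvd_pow p k.le_succ)
  have hi : H.index = p := by
    have := H.card_mul_index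
    rw [hH, h, pow_succ] at this
    exact Nat.eq_of_mul_eq_mul_left (pow_pos hp.pos k) this
  have : H.Normal := Subgroup.normal_of_index_eq_minFac_card (by rw [hi, h, hp.pow_minFac hk])
  let L := IntermediateField.fixedField H
  have hL : Module.finrank F L = p := by
    have h1 := Module.finrank_mul_finrank F L M
    rw [IntermediateField.finrank_fixedField_eq_card, hH, ← IsGalois.card_aut_eq_finrank F M, h,
      pow_succ'] at h1
    exact Nat.eq_of_mul_eq_mul_right (pow_pos hp.pos k) h1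
  have : IsCyclic (L ≃ₐ[F] L) :=
    isCyclic_of_prime_card (p := p) (by rw [IsGalois.card_aut_eq_finrank, hL])
  obtain ⟨α, ⟨b, hb⟩, h2⟩ := exists_root_adjoin_eq_top_of_isCyclic F L
    ⟨ζ, by rwa [hL, mem_primitiveRoots hp.pos]⟩
  rw [hL] at hb
  obtain ⟨c, hc⟩ := hF α ⟨b, congrArg Subtype.val hb⟩
  have h4 : α ∈ (⊥ : IntermediateField F L) := ⟨c, Subtype.ext hc⟩
  rw [← IntermediateField.adjoin_simple_eq_bot_iff, h2] at h4
  have h5 := IntermediateField.finrank_top' (F := F) (E := L)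
  rw [h4, IntermediateField.finrank_bot, hL] at h5
  exact hp.one_lt.ne h5

theorem dense (hK : RadCl K) (w : Place) (x : Qb) {ε : ℝ} (hε : 0 < ε) :
    ∃ y ∈ K, w.N (x - y) < ε := by
  refine (?_ : x ∈ clos K w) ε hε
  set F := clos K w with hF
  have hx : IsIntegral F x := (Algebra.IsIntegral.isIntegral (R := ℚ) x).tower_top
  let M := IntermediateField.adjoin F ((minpoly F x).rootSet Qb)
  have hs : (minpoly F x).IsSplittingField F M :=
    IntermediateField.adjoin_rootSet_isSplittingField (IsAlgClosed.splits _)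
  have := IsSplittingField.finiteDimensional M (minpoly F x)
  have := Normal.of_isSplittingField (E := M) (minpoly F x)
  have : IsGalois F M := {}
  have hinv := invariant M w fun _ => clos_closed
  have hlt : ∀ (σ : M ≃ₐ[F] M) (a : M), a ≠ 0 → w.N ((σ a : M) - a) < w.N a := fun σ a ha => by
    obtain ⟨b, hb, e⟩ := exists_closer hK w (a := a) (by simpa using ha)
    let b' : M := algebraMap F M ⟨b, le_clos w hb⟩
    have h1 : ((σ a : M) : Qb) - a = (σ (a - b') : M) - (a - b' : M) := by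
      rw [map_sub, show σ b' = b' from σ.commutes _]; push_cast; ring
    rw [h1]
    exact w.sub_lt_of ((hinv σ _).trans_lt e) e
  have hc := Nat.eq_prime_pow_of_unique_prime_dvd (n := Nat.card (M ≃ₐ[F] M)) (p := w.p)
    Nat.card_pos.ne' fun {l} hl hd => by
      have : Fact l.Prime := ⟨hl⟩
      obtain ⟨σ, hσ⟩ := exists_prime_orderOf_dvd_card' l hd
      have h1 : σ ≠ 1 := by rintro rfl; exact hl.one_lt.ne (by simpa using hσ)
      obtain ⟨a, ha⟩ : ∃ a, σ a ≠ a := by
        by_contra! h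
        exact h1 (AlgEquiv.ext h)
      set a' := σ a - a with ha'
      have h2 : ∑ i ∈ Finset.range l, (σ ^ i) a' = 0 := by
        have := Finset.sum_range_sub (fun i => (σ ^ i) a) l
        rw [← hσ, pow_orderOf_eq_one, pow_zero, sub_self, hσ] at this
        rw [← this]
        exact Finset.sum_congr rfl fun i _ => by rw [ha', map_sub, pow_succ]; rfl
      have h0 : a' ≠ 0 := sub_ne_zero.2 ha
      have h3 := w.sum_lt (Finset.range l) (fun i => (((σ ^ i) a' : M) : Qb) - a')
        (w.N.pos (by simpa using h0)) fun i _ => hlt _ _ h0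
      have h4 : ∑ i ∈ Finset.range l, (((σ ^ i) a' : M) : Qb) = 0 := by exact_mod_cast h2
      rw [Finset.sum_sub_distrib, h4, zero_sub, w.N.map_neg, Finset.sum_const, Finset.card_range,
        nsmul_eq_mul, map_mul] at h3
      by_contra hne
      rw [w.N_nat_eq_one (fun h => hne ((Nat.prime_dvd_prime_iff_eq w.hp hl).1 h).symm),
        one_mul] at h3
      exact lt_irrefl _ h3
  have : NeZero w.p := ⟨w.hp.ne_zero⟩
  obtain ⟨ζ, hζ⟩ := HasEnoughRootsOfUnity.exists_primitiveRoot Qb w.p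
  have hR := radCl_clos hK w
  have h0 := trivial_of_pgroup w.hp
    (ζ := (⟨ζ, hR ζ _ w.hp.ne_zero (hζ.pow_eq_one ▸ F.one_mem)⟩ : F))
    (IsPrimitiveRoot.of_map_of_injective (f := algebraMap F Qb) hζ (RingHom.injective _))
    (fun y ⟨b, hb⟩ => ⟨⟨y, hR _ _ w.hp.ne_zero (by
      have : (b : Qb) = (y : Qb) ^ w.p := congrArg Subtype.val hb
      exact this ▸ b.2)⟩, Subtype.ext rfl⟩) hc
  rw [h0, pow_zero, IsGalois.card_aut_eq_finrank, IntermediateField.finrank_eq_one_iff] at hc
  have hxM : x ∈ M := IntermediateField.subset_adjoin _ _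
    ((mem_rootSet_of_ne (minpoly.ne_zero hx)).2 (minpoly.aeval _ _))
  rw [hc] at hxM
  obtain ⟨b, rfl⟩ := hxM
  exact b.2

end Pool.Agent.Lib.ZS
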