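import Pool.Agent.Lib.ZS.Alg

/-! Lines of high contact at the generic point of a smooth hypersurface. -/

namespace Pool.Agent.Lib.ZS

open Polynomial

variable {ι : Type} [Fintype ι] [DecidableEq ι] {F : MvPolynomial ι ℤ} {d : ℕ} {o : ι}

/-- No singular point over `k`. -/
def Sm (F : MvPolynomial ι ℤ) (k : Type) [CommRing k] : Prop :=
  ∀ x : ι → k, (∀ i, ev x (MvPolynomial.pderiv i F) = 0) → x = 0

omit [DecidableEq ι] in
theorem Sm.transfer {k E : Type} [Field k] [IsAlgClosed k] [CharZero k] [Field E] [CharZero E]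
    (h : Sm F k) : Sm F E := fun x hx => funext fun j => by
  have key : ∀ {S : Type} [Field S] [CharZero S] (z : ι → S) (G : MvPolynomial ι ℤ),
      MvPolynomial.aeval z (MvPolynomial.map (Int.castRingHom ℚ) G) = ev z G := fun z G =>
    RingHom.congr_fun (f := (MvPolynomial.aeval z : MvPolynomial ι ℚ →ₐ[ℚ] _).toRingHom.comp
      (MvPolynomial.map (Int.castRingHom ℚ)))
      (MvPolynomial.ringHom_ext' (RingHom.ext_int _ _) fun i => by simp) G
  let I := Ideal.span (Set.range fun i =>
    MvPolynomial.map (Int.castRingHom ℚ) (MvPolynomial.pderiv i F))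
  have h1 : MvPolynomial.X j ∈ MvPolynomial.vanishingIdeal ℚ (MvPolynomial.zeroLocus k I) :=
    fun z hz => by
      rw [h z fun i => (key z _).symm.trans (hz _ (Ideal.subset_span ⟨i, rfl⟩))]; simp
  rw [MvPolynomial.vanishingIdeal_zeroLocus_eq_radical] at h1
  have := MvPolynomial.radical_le_vanishingIdeal_zeroLocus (K := E) I h1 x (by
    rw [MvPolynomial.zeroLocus_span]
    rintro _ ⟨i, rfl⟩
    exact (key x _).trans (hx i))
  simpa using this

/-- A line through `x` meeting the hypersurface only in `x`, or a line on the hypersurface which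
deforms to such a line to first order. -/
structure Flex (F : MvPolynomial ι ℤ) (d : ℕ) (o : ι) {S : Type} [CommRing S] (x v q : ι → S)
    (c : Fin 4 → S) : Prop where
  v0 : v o = 0
  q0 : q o = 0
  one : c 0 * c 2 + c 1 * c 3 = 1
  line : lineP F x v = C (c 0) * X ^ d
  def1 : ∑ i, lineP (MvPolynomial.pderiv i F) x v * C (q i) = C (c 1) * X ^ (d - 1)

omit [DecidableEq ι] in
theorem Flex.transfer {Γ E k : Type} [CommRing Γ] [CommRing E] [CommRing k] (π : Γ →+* E)
    (ρ : Γ →+* k) (hk : ∀ g, π g = 0 → ρ g = 0) {x v q : ι → Γ} {c : Fin 4 → Γ}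
    (h : Flex F d o (fun i => π (x i)) (fun i => π (v i)) (fun i => π (q i)) fun i => π (c i)) :
    Flex F d o (fun i => ρ (x i)) (fun i => ρ (v i)) (fun i => ρ (q i)) fun i => ρ (c i) := by
  have h1 : ∀ a b, π a = π b → ρ a = ρ b := fun a b e =>
    sub_eq_zero.1 ((map_sub ρ a b).symm.trans (hk _ (by rw [map_sub, e, sub_self])))
  have h2 : ∀ a b : Γ[X], a.map π = b.map π → a.map ρ = b.map ρ := fun a b e => by
    ext j
    simpa using h1 _ _ (by simpa using congrArg (coeff · j) e)
  refine ⟨hk _ h.v0, hk _ h.q0, ?_, ?_, ?_⟩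
  · simpa using h1 (c 0 * c 2 + c 1 * c 3) 1 (by simpa using h.one)
  · have := h2 (lineP F x v) (C (c 0) * X ^ d)
    simp only [map_lineP, Polynomial.map_mul, Polynomial.map_pow, map_C, map_X] at this
    exact this h.line
  · have := h2 (∑ i, lineP (MvPolynomial.pderiv i F) x v * C (q i)) (C (c 1) * X ^ (d - 1))
    simp only [map_lineP, Polynomial.map_sum, Polynomial.map_mul, Polynomial.map_pow, map_C,
      map_X] at this
    exact this h.def1

theorem exists_flex {E : Type} [Field E] [IsAlgClosed E] [CharZero E] (hF : F.IsHomogeneous d)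
    (hd : 1 ≤ d) (hn : d < Fintype.card ι) (hs : Sm F E) {x : ι → E} (hx0 : x o = 1)
    (hx : ev x F = 0)
    (hder : ∀ p : ι → E, p o = 0 → ∑ i, ev x (MvPolynomial.pderiv i F) * p i = 0 →
      ∃ δ : E →+ E, (∀ a b, δ (a * b) = a * δ b + b * δ a) ∧ ∀ i, δ (x i) = p i) :
    ∃ v q c, Flex F d o x v q c := by
  classical
  let G := lineP F (fun i => (MvPolynomial.C (x i) : MvPolynomial ι E)) MvPolynomial.X
  have hG : ∀ (v : ι → E) j, MvPolynomial.aeval v (G.coeff j) = (lineP F x v).coeff j :=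
    fun v j => by
      have := congrArg (coeff · j) (map_lineP (MvPolynomial.aeval v).toRingHom F
        (fun i => (MvPolynomial.C (x i) : MvPolynomial ι E)) MvPolynomial.X)
      simpa using this
  obtain ⟨v, hv0, hv⟩ := exists_other_zero
    (insert (MvPolynomial.X o) ((Finset.Ico 1 d).image G.coeff)) (by
      simp only [Finset.mem_insert, Finset.mem_image, forall_eq_or_imp, forall_exists_index,
        and_imp]
      refine ⟨by simp, ?_⟩
      rintro _ j - rfl
      have : lineP F x 0 = C (ev x F) := by rw [map_ev, lineP]; simp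
      rw [hG, this, hx, map_zero, coeff_zero])
    (by
      have h1 := Finset.card_insert_le (MvPolynomial.X o) ((Finset.Ico 1 d).image G.coeff)
      have h2 := Finset.card_image_le (s := Finset.Ico 1 d) (f := G.coeff)
      rw [Nat.card_Ico] at h2
      rw [Nat.card_eq_fintype_card]
      omega)
  have hvo : v o = 0 := by simpa using hv _ (Finset.mem_insert_self _ _)
  have hline : lineP F x v = C (ev v F) * X ^ d := by
    ext j
    rw [coeff_C_mul_X_pow]
    split_ifs with h
    · rw [h, (lineP_top hF x v).2]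
    rcases lt_or_gt_of_ne h with h | h
    · rcases Nat.eq_zero_or_pos j with rfl | h0
      · rw [coeff_zero_eq_eval_zero, eval_lineP]; simpa using hx
      · rw [← hG]
        exact hv _ (Finset.mem_insert_of_mem (Finset.mem_image_of_mem _ (Finset.mem_Ico.2 ⟨h0, h⟩)))
    · exact coeff_eq_zero_of_natDegree_lt ((lineP_top hF x v).1.trans_lt h)
  by_cases hc : ev v F = 0
  swap
  · exact ⟨v, 0, ![ev v F, 0, (ev v F)⁻¹, 0], hvo, rfl, by simp [hc], hline, by simp⟩
  have h0 : lineP F x v = 0 := by rw [hline, hc, map_zero, zero_mul]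
  set A : ι → E[X] := fun i => lineP (MvPolynomial.pderiv i F) x v with hA
  let α : (ι → E) →ₗ[E] E[X] := Fintype.linearCombination E A
  have hα : ∀ p, α p = ∑ i, A i * C (p i) := fun p => by
    simp [α, Fintype.linearCombination_apply, smul_eq_C_mul, mul_comm]
  let W : Submodule E E[X] := (LinearMap.ker (LinearMap.proj o : (ι → E) →ₗ[E] E)).map α
  have h1 : α v = 0 := by rw [hα, ← derivative_lineP, h0, derivative_zero]
  have h2 : α x = 0 := by
    have := euler hF (fun i => C (x i) + C (v i) * X)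
    rw [← lineP, h0, mul_zero] at this
    rw [hα] at h1 ⊢
    rw [← this, ← add_zero (∑ i, A i * C (x i)), ← zero_mul X, ← h1, Finset.sum_mul,
      ← Finset.sum_add_distrib]
    exact Finset.sum_congr rfl fun i _ => by simp only [hA, lineP]; ring
  have hAW : ∀ i, A i ∈ W := fun i =>
    ⟨Pi.single i 1 - (Pi.single i (1 : E) : ι → E) o • x, by simp [hx0], by
      rw [map_sub, map_smul, h2]; simp [α]⟩
  obtain ⟨q, hq, e⟩ := X_pow_mem W (by
      rintro _ ⟨p, hp, rfl⟩ hp0
      obtain ⟨δ, hδ, hδx⟩ := hder p hp (by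
        rw [coeff_zero_eq_eval_zero, hα] at hp0
        simpa [eval_finsetSum, hA, eval_lineP] using hp0)
      refine ⟨α fun i => -δ (v i), ⟨_, by simp [hvo], rfl⟩, ?_⟩
      refine eq_of_infinite_eval_eq _ _ ((Set.infinite_range_of_injective
        (Nat.cast_injective (R := E))).mono ?_)
      rintro _ ⟨t, rfl⟩
      have h3 := chain δ hδ (fun i => x i + v i * t) F
      rw [← eval_lineP, h0, eval_zero, map_zero] at h3
      simp only [map_add, hδx, ← nsmul_eq_mul', map_nsmul] at h3
      simp only [Set.mem_ofPred_eq, hα, eval_mul, eval_finsetSum, eval_C, eval_X, hA, eval_lineP,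
        Finset.mul_sum, ← nsmul_eq_mul']
      rw [← sub_eq_zero, ← Finset.sum_sub_distrib, h3]
      exact Finset.sum_congr rfl fun i _ => by simp only [nsmul_eq_mul]; ring)
    (fun τ => by
      by_contra! h
      have := congrFun (hs (fun i => x i + v i * τ) fun i =>
        (eval_lineP _ _ _ _).symm.trans (h _ (hAW i))) o
      simp [hx0, hvo] at this)
    (d - 1) (by
      obtain ⟨i, hi⟩ : ∃ i, ev v (MvPolynomial.pderiv i F) ≠ 0 := by
        by_contra! h
        exact hv0 (hs v h)
      have h3 := lineP_top (hF.pderiv (i := i)) x v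
      rw [← h3.2] at hi
      exact ⟨A i, hAW i, fun h => hi (by rw [show lineP _ x v = 0 from h, coeff_zero]),
        natDegree_eq_of_le_of_coeff_ne_zero h3.1 hi⟩) (X ^ (d - 1)) (by simp)
  exact ⟨v, q, ![0, 1, 0, 1], hvo, hq, by simp, by simp [h0], by simpa [hα] using e⟩

theorem generic_flex_aux {L E : Type} [Field L] [Algebra (MvPolynomial ι ℤ) L]
    [IsFractionRing (MvPolynomial ι ℤ) L] [Field E] [IsAlgClosed E] [CharZero E] [Algebra L E]
    [Algebra (MvPolynomial ι ℤ) E] [IsScalarTower (MvPolynomial ι ℤ) L E] [Algebra.IsSeparable L E]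
    (hF : F.IsHomogeneous d) (hd : 1 ≤ d) (hn : d < Fintype.card ι) (hs : Sm F E) {u : ι → ℤ}
    (hu : u o = 0) {Y : ι → E}
    (hY : Y = Function.update (fun i => algebraMap (MvPolynomial ι ℤ) E (MvPolynomial.X i)) o 1)
    {τ : E} (hτ : ev (fun i => Y i + u i * τ) F = 0) :
    ∃ v q c, Flex F d o (fun i => Y i + u i * τ) v q c := by
  set x : ι → E := fun i => Y i + u i * τ with hx
  have hx0 : x o = 1 := by simp [hx, hY, hu]
  set D := ∑ i, ev x (MvPolynomial.pderiv i F) * u i with hD
  have key : ∀ p : ι → E, p o = 0 → ∃ δ : E →+ E, (∀ a b, δ (a * b) = a * δ b + b * δ a) ∧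
      (∀ i, δ (x i) = p i + u i * δ τ) ∧
      ∑ i, ev x (MvPolynomial.pderiv i F) * p i + D * δ τ = 0 := fun p hp => by
    obtain ⟨δ, hδ, h⟩ := exists_der (L := L) p
    have h1 : δ 1 = 0 := by simpa using hδ 1 1
    have h2 : ∀ i, δ (x i) = p i + u i * δ τ := fun i => by
      simp only [hx, map_add, ← zsmul_eq_mul, map_zsmul, add_left_inj, hY]
      by_cases hi : i = o
      · simp [hi, h1, hp]
      · simp [hi, h]
    refine ⟨δ, hδ, h2, ?_⟩
    have h3 := chain δ hδ x F
    rw [hτ, map_zero] at h3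
    rw [h3, hD, Finset.sum_mul, ← Finset.sum_add_distrib]
    exact Finset.sum_congr rfl fun i _ => by rw [h2]; ring
  have hD0 : D ≠ 0 := fun h => by
    have h1 : ∀ j, j ≠ o → ev x (MvPolynomial.pderiv j F) = 0 := fun j hj => by
      obtain ⟨δ, -, -, e⟩ := key (Pi.single j 1) (by simp [hj.symm])
      simpa [h, Pi.single_apply] using e
    have h2 := euler hF x
    rw [hτ, mul_zero, Finset.sum_eq_single o (fun j _ hj => by rw [h1 j hj, mul_zero]) (by simp),
      hx0, one_mul] at h2
    have := congrFun (hs x fun j => (eq_or_ne j o).elim (fun e => e ▸ h2) (h1 j)) o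
    simp [hx0] at this
  refine exists_flex hF hd hn hs hx0 hτ fun p hp hp' => ?_
  obtain ⟨δ, hδ, h1, h2⟩ := key p hp
  rw [hp', zero_add, mul_eq_zero_iff_left hD0] at h2
  exact ⟨δ, hδ, by simpa [h2] using h1⟩

theorem generic_flex {k : Type} [Field k] [IsAlgClosed k] [CharZero k] (hF : F.IsHomogeneous d)
    (hd : 1 ≤ d) (hn : d < Fintype.card ι) (hs : Sm F k) {u : ι → ℤ} (hu : u o = 0)
    (ha : ev u F ≠ 0) : ∃ h : MvPolynomial ι ℤ, h ≠ 0 ∧ ∀ y : ι → k, ev y h ≠ 0 →
      ∃ s : Multiset k, s.card = d ∧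
        ev (Function.update y o 1) F = (ev u F : ℤ) * (s.map (0 - ·)).prod ∧
        ∀ τ ∈ s, ∃ v q c, Flex F d o (fun i => Function.update y o 1 i + u i * τ) v q c := by
  classical
  let P := MvPolynomial ι ℤ
  let L := FractionRing P
  let E := AlgebraicClosure L
  have inj : Function.Injective (algebraMap P E) := by
    rw [IsScalarTower.algebraMap_eq P L E]
    exact (algebraMap L E).injective.comp (IsFractionRing.injective P L)
  have : Algebra.IsAlgebraic P E := (IsFractionRing.comap_isAlgebraic_iff (K := L)).2 inferInstance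
  set Y : ι → E := Function.update (fun i => algebraMap P E (MvPolynomial.X i)) o 1 with hY
  set φ := lineP F Y fun i => (u i : E) with hφ
  have hlc : φ.coeff d = ((ev u F : ℤ) : E) :=
    (lineP_top hF _ _).2.trans (map_ev (Int.castRingHom E) u F).symm
  have hc0 : φ.coeff d ≠ 0 := by rw [hlc]; exact_mod_cast ha
  have hdeg : φ.natDegree = d := natDegree_eq_of_le_of_coeff_ne_zero (lineP_top hF _ _).1 hc0
  have hex : ∀ τ : E, ∃ v q c, τ ∈ φ.roots → Flex F d o (fun i => Y i + u i * τ) v q c :=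
    fun τ => by
      by_cases h : τ ∈ φ.roots
      · obtain ⟨v, q, c, e⟩ := generic_flex_aux (L := L) hF hd hn hs.transfer hu hY
          ((eval_lineP _ _ _ _).symm.trans (isRoot_of_mem_roots h))
        exact ⟨v, q, c, fun _ => e⟩
      · exact ⟨0, 0, 0, fun h' => (h h').elim⟩
  choose v q c hfl using hex
  obtain ⟨h, h0, hh⟩ := exists_graph (k := k) inj (φ.roots.toFinset.biUnion fun τ => insert τ
    (Finset.univ.image (v τ) ∪ Finset.univ.image (q τ) ∪ Finset.univ.image (c τ)))
  refine ⟨h, h0, fun y hy => ?_⟩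
  obtain ⟨Γ, h1, h2, h3⟩ := hh (ev y) hy
  let π : Γ →+* E := (RingHom.fst _ _).comp Γ.subtype
  let ρ : Γ →+* k := (RingHom.snd _ _).comp Γ.subtype
  have hk : ∀ g, π g = 0 → ρ g = 0 := fun g hg => h1 _ (by
    have : (g : E × k) = (0, ρ g) := Prod.ext hg rfl
    exact this ▸ g.2)
  have hl : ∀ z : E, ∃ g : Γ, (∃ b, (z, b) ∈ Γ) → π g = z := fun z => by
    by_cases h : ∃ b, (z, b) ∈ Γ
    · obtain ⟨b, hb⟩ := h; exact ⟨⟨_, hb⟩, fun _ => rfl⟩
    · exact ⟨0, fun h' => (h h').elim⟩
  choose l hl using hl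
  let Yl : ι → Γ := Function.update (fun i => ⟨_, h2 (MvPolynomial.X i)⟩) o 1
  have hY1 : ∀ i, π (Yl i) = Y i := fun i => by
    by_cases hi : i = o <;> simp [Yl, hY, hi, π]
  have hY2 : ∀ i, ρ (Yl i) = Function.update y o 1 i := fun i => by
    by_cases hi : i = o
    · simp [Yl, hi, ρ]
    · simp only [Yl, Function.update_of_ne hi]; exact ev_X _ _
  have hT : ∀ τ ∈ φ.roots, π (l τ) = τ ∧ (∀ i, π (l (v τ i)) = v τ i) ∧
      (∀ i, π (l (q τ i)) = q τ i) ∧ ∀ i, π (l (c τ i)) = c τ i := fun τ hτ => by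
    refine ⟨?_, fun i => ?_, fun i => ?_, fun i => ?_⟩ <;>
      exact hl _ (h3 _ (Finset.mem_biUnion.2 ⟨τ, Multiset.mem_toFinset.2 hτ, by simp⟩))
  refine ⟨φ.roots.map fun τ => ρ (l τ), ?_, ?_, ?_⟩
  · rw [Multiset.card_map, IsAlgClosed.card_roots_eq_natDegree, hdeg]
  · have h4 := hk (ev Yl F - (ev u F : ℤ) * (φ.roots.map fun τ => 0 - l τ).prod) (by
      have h5 := congrArg (eval 0) (IsAlgClosed.splits φ).eq_prod_roots
      rw [leadingCoeff, hdeg, hlc, eval_lineP] at h5
      simp only [mul_zero, add_zero, eval_mul, eval_C, eval_multiset_prod, Multiset.map_map,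
        Function.comp_apply, eval_sub, eval_X] at h5
      rw [map_sub, map_ev, map_mul, map_intCast, map_multiset_prod, Multiset.map_map, sub_eq_zero,
        funext hY1, h5]
      congr 2
      exact Multiset.map_congr rfl fun τ hτ => by simp [(hT τ hτ).1])
    rw [map_sub, map_ev, map_mul, map_intCast, map_multiset_prod, sub_eq_zero, funext hY2] at h4
    simpa using h4
  · intro _ hτ'
    obtain ⟨τ, hτ, rfl⟩ := Multiset.mem_map.1 hτ'
    obtain ⟨e1, e2, e3, e4⟩ := hT τ hτ
    have := Flex.transfer (F := F) (d := d) (o := o) π ρ hk (x := fun i => Yl i + u i * l τ)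
      (v := fun i => l (v τ i)) (q := fun i => l (q τ i)) (c := fun i => l (c τ i))
      (by simpa [hY1, e1, e2, e3, e4] using hfl τ hτ)
    exact ⟨_, _, _, by simpa [hY2] using this⟩

end Pool.Agent.Lib.ZS
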