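import Pool.Agent.Lib.ZS.Loc

/-! Integral points with solvable coordinates on smooth hypersurfaces of small degree. -/

namespace Pool.Agent.Lib.ZS

open Polynomial Pool.Agent.Lib.MP_7610b6_lc

variable {ι : Type} {F : MvPolynomial ι ℤ} {d : ℕ} {o : ι}

lemma eval_map_ev {S : Type*} [CommRing S] (z : ι → S) (G : MvPolynomial ι ℤ) :
    MvPolynomial.eval z (MvPolynomial.map (Int.castRingHom S) G) = ev z G :=
  MvPolynomial.eval_map _ _ _

/-- A primitive polynomial takes a unit value. -/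
lemma exists_unit (w : Place) {H : MvPolynomial ι ℤ} (hH : ¬ MvPolynomial.C (w.p : ℤ) ∣ H) :
    ∃ z : ι → Qb, (∀ i, w.N (z i) ≤ 1) ∧ w.N (ev z H) = 1 := by
  let I := ballI w one_pos
  have hI : ∀ a : w.ball, Ideal.Quotient.mk I a = 0 ↔ w.N a < 1 := fun a =>
    Ideal.Quotient.eq_zero_iff_mem
  have : I.IsPrime := ⟨fun h => by simpa using (hI 1).1 (Ideal.Quotient.eq_zero_iff_mem.2 (h ▸ trivial)),
    fun {a b} h => by
      by_contra! hc
      have h1 : 1 ≤ w.N a := not_lt.1 hc.1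
      have h2 : 1 ≤ w.N b := not_lt.1 hc.2
      exact absurd (show w.N (a * b) < 1 from h) (not_lt.2 (by
        rw [map_mul]; exact one_le_mul_of_one_le_of_one_le h1 h2))⟩
  have : Infinite (w.ball ⧸ I) := ⟨fun h => by
    have := Fintype.ofFinite (w.ball ⧸ I)
    choose g hg using Ideal.Quotient.mk_surjective (I := I)
    obtain ⟨t, -, h1, h2⟩ := skolem (K := ⊤) (fun _ _ _ _ => trivial) _
      ((Finset.univ : Finset (w.ball ⧸ I)).toList.map fun a => (g a : Qb)) rfl fun _ _ => trivial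
    exact absurd (Ideal.Quotient.eq.1 (hg (Ideal.Quotient.mk I ⟨t, h1 w⟩)).symm)
      (not_lt.2 (h2 _ (List.mem_map.2 ⟨_, by simp, rfl⟩) w))⟩
  by_contra! hc
  refine hH ((MvPolynomial.C_dvd_iff_dvd_coeff _ _).2 fun m => w.dvd_of_N_lt_one ?_)
  have h0 : MvPolynomial.map (Int.castRingHom (w.ball ⧸ I)) H = 0 :=
    MvPolynomial.funext fun y => by
      choose z hz using fun i => Ideal.Quotient.mk_surjective (y i)
      rw [eval_map_ev, ← funext hz, ← map_ev, map_zero, hI]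
      have e := map_ev w.ball.subtype z H
      exact lt_of_le_of_ne (ev z H).2 fun h => hc (fun i => z i) (fun i => (z i).2) (e ▸ h)
  have := congrArg (MvPolynomial.coeff m) h0
  rw [MvPolynomial.coeff_map, MvPolynomial.coeff_zero, eq_intCast,
    ← map_intCast (Ideal.Quotient.mk I), hI] at this
  simpa using this

variable [DecidableEq ι]

lemma local_zero (w : Place) (hF : F.IsHomogeneous d) {u : ι → ℤ} (hu : u o = 0) (hd : 1 ≤ d)
    (ha : ev u F ≠ 0) (h : ∀ m : ℤ, (∀ s, s ≠ Finsupp.single o d → m ∣ F.coeff s) →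
      m ∣ F.coeff (Finsupp.single o d)) :
    ∃ z : ι → Qb, z o = 1 ∧ (∀ i, w.N (z i) ≤ 1) ∧ ev z F = 0 := by
  set c := F.coeff (Finsupp.single o d)
  set G := F - MvPolynomial.monomial (Finsupp.single o d) c with hG
  have hGc : ∀ s, G.coeff s = if s = Finsupp.single o d then 0 else F.coeff s := fun s => by
    rw [hG, MvPolynomial.coeff_sub, MvPolynomial.coeff_monomial]
    by_cases e : s = Finsupp.single o d
    · simp [e, c]
    · simp [e, Ne.symm e]
  have hGh : G.IsHomogeneous d := hF.sub (MvPolynomial.isHomogeneous_monomial _ (by simp))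
  have hev : ∀ {S : Type} [CommRing S] (z : ι → S), ev z F = ev z G + c * z o ^ d := fun z => by
    rw [hG, map_sub, ← MvPolynomial.C_mul_X_pow_eq_monomial]; simp
  set g := G.support.gcd G.coeff
  have hg : ∀ m : ℤ, MvPolynomial.C m ∣ G ↔ m ∣ g := fun m => by
    rw [MvPolynomial.C_dvd_iff_dvd_coeff, Finset.dvd_gcd_iff]
    exact ⟨fun h s _ => h s, fun h s => by
      by_cases e : s ∈ G.support
      · exact h s e
      · simp [MvPolynomial.notMem_support_iff.1 e]⟩
  obtain ⟨G', e⟩ := (hg g).2 dvd_rfl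
  have g0 : g ≠ 0 := fun g0 => ha (by rw [hev, e, g0, hu, zero_pow (by omega)]; simp)
  obtain ⟨c', hc'⟩ : g ∣ c := h g fun s hs => by
    simpa [hGc, hs] using (MvPolynomial.C_dvd_iff_dvd_coeff _ _).1 ⟨G', e⟩ s
  obtain ⟨z, hz, h1⟩ := exists_unit w (H := MvPolynomial.X o * G') fun h1 => by
    have h2 : MvPolynomial.C (w.p : ℤ) ∣ G' := (MvPolynomial.C_dvd_iff_dvd_coeff _ _).2 fun s => by
      rw [← MvPolynomial.coeff_X_mul s o]
      exact (MvPolynomial.C_dvd_iff_dvd_coeff _ _).1 h1 _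
    have h3 := (hg (g * w.p)).1 (by rw [e, map_mul]; exact mul_dvd_mul_left _ h2)
    exact w.hp.not_dvd_one (by exact_mod_cast (mul_dvd_mul_iff_left g0).1 (h3.trans (mul_one g).symm.dvd))
  rw [map_mul, map_mul, ev_X] at h1
  have h2 : w.N (ev z G') ≤ 1 := ev_mem w.ball _ hz
  have h3 : w.N (z o) = 1 := by nlinarith [hz o, w.N.nonneg (z o), w.N.nonneg (ev z G')]
  have h4 : z o ≠ 0 := w.N.pos_iff.1 (h3 ▸ one_pos)
  rw [h3, one_mul] at h1
  let e₀ : ι → Qb := Pi.single o 1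
  let v : ι → Qb := fun i => (z o)⁻¹ * z i - e₀ i
  have h5 : ev e₀ G = 0 := by
    rw [G.as_sum, map_sum]
    refine Finset.sum_eq_zero fun s hs => ?_
    obtain ⟨i, hi, hio⟩ : ∃ i ∈ s.support, i ≠ o := by
      by_contra! hc
      have h6 := Finsupp.support_subset_singleton.1 fun i hi => Finset.mem_singleton.2 (hc i hi)
      have h7 := hGh.degree_eq_sum_deg_support hs
      rw [h6, Finset.sum_subset Finsupp.support_single_subset (by simp +contextual)] at h7
      rw [Finset.sum_singleton, Finsupp.single_eq_same] at h7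
      exact MvPolynomial.mem_support_iff.1 hs (by rw [hGc, if_pos (h7 ▸ h6)])
    rw [ev_monomial, Finset.prod_eq_zero hi (by simp [e₀, hio, Finsupp.mem_support_iff.1 hi]),
      mul_zero]
  have h6 : (lineP F e₀ v).eval 0 = c := by simp [eval_lineP, hev, h5, e₀]
  have h7 : w.N ((lineP F e₀ v).eval 1 - (lineP F e₀ v).eval 0) = w.N g := by
    rw [h6, eval_lineP]
    simp only [v, mul_one, add_sub_cancel]
    rw [hev, ev_smul hGh, inv_mul_cancel₀ h4, e]
    simp [h1, h3]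
  obtain ⟨r, hr, h8⟩ := newton (w := w) (f := lineP F e₀ v)
    (w.N.pos_iff.1 (h7 ▸ w.N.pos (by exact_mod_cast g0))) (by
      rw [h7, h6, hc', Int.cast_mul, map_mul]
      exact mul_le_of_le_one_right (w.N.nonneg _) (w.int_le_one _))
  have h9 : ∀ i, w.N (e₀ i) ≤ 1 := fun i => by by_cases hi : i = o <;> simp [e₀, hi]
  exact ⟨_, by simp [e₀, h4], fun i => w.add_le_of (h9 i) (w.mul_le_one (w.sub_le_of
    (w.mul_le_one (by simp [h3]) (hz i)) (h9 i)) hr), (eval_lineP _ _ _ _).symm.trans h8⟩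

variable [Fintype ι]

lemma exists_dir (hF : F.IsHomogeneous d) (hd : 2 ≤ d) (hn : d < Fintype.card ι) (hs : Sm F Qb)
    (o : ι) : ∃ u : ι → ℤ, u o = 0 ∧ ev u F ≠ 0 := by
  classical
  by_contra! hc
  have h0 : ev (Function.update MvPolynomial.X o (0 : MvPolynomial ι ℤ)) F = 0 :=
    MvPolynomial.funext fun y => by
      rw [map_ev, map_zero]; exact hc _ (by simp)
  have h1 : ∀ z : ι → Qb[X], z o = 0 → ev z F = 0 := fun z hz => by
    have := congrArg (ev z) h0
    rw [map_ev, map_zero] at this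
    convert this with i
    by_cases hi : i = o <;> simp [hi, hz]
  obtain ⟨v, hv0, hv⟩ := exists_other_zero (Ω := Qb) {MvPolynomial.X o,
    MvPolynomial.map (Int.castRingHom Qb) (MvPolynomial.pderiv o F)} (by
      have := ev_smul (hF.pderiv (i := o)) (0 : Qb) 0
      rw [zero_pow (by omega), zero_mul] at this
      simp only [Finset.mem_insert, Finset.mem_singleton, forall_eq_or_imp, forall_eq,
        MvPolynomial.aeval_eq_eval, eval_map_ev, MvPolynomial.eval_X]
      exact ⟨rfl, by simpa [Pi.zero_def] using this⟩)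
    (by rw [Nat.card_eq_fintype_card]; have := Finset.card_le_two (a := MvPolynomial.X o)
          (b := MvPolynomial.map (Int.castRingHom Qb) (MvPolynomial.pderiv o F)); omega)
  simp only [Finset.mem_insert, Finset.mem_singleton, forall_eq_or_imp, forall_eq,
    MvPolynomial.aeval_eq_eval, eval_map_ev, MvPolynomial.eval_X] at hv
  refine hv0 (hs v fun j => (eq_or_ne j o).elim (fun e => e ▸ hv.2) fun hj => ?_)
  have h2 := congrArg (eval 0) (derivative_lineP F v (Pi.single j 1))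
  rw [lineP, h1 _ (by simp [hv.1, hj.symm])] at h2
  simpa [eval_finsetSum, eval_lineP, Pi.single_apply] using h2.symm

lemma local_good (w : Place) (hF : F.IsHomogeneous d) (hd : 1 ≤ d) (hn : d < Fintype.card ι)
    (hs : Sm F Qb) {u : ι → ℤ} (hu : u o = 0) (ha : ev u F ≠ 0) {z : ι → Qb} (z0 : z o = 1)
    (hz : ∀ i, w.N (z i) ≤ 1) (hz0 : ev z F = 0) : ∃ ε > 0, ∃ x v : ι → Qb, (∀ i, x i ∈ Ksolv) ∧
      (∀ i, v i ∈ Ksolv) ∧ Good F d o w ε x v := by
  obtain ⟨h, h0, hh⟩ := generic_flex hF hd hn hs hu ha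
  set a : Qb := ((ev u F : ℤ) : Qb) with ha'
  have a0 : a ≠ 0 := by rw [ha']; exact_mod_cast ha
  have a1 : w.N a ≤ 1 := w.int_le_one _
  obtain ⟨y, hy, hyh⟩ : ∃ y : ι → Qb, (∀ i, w.N (y i - z i) < w.N a) ∧ ev y h ≠ 0 := by
    by_contra! hc
    obtain ⟨b, b0, hb⟩ := exists_small w (w.N.pos a0)
    refine h0 (MvPolynomial.map_injective (Int.castRingHom Qb) Int.cast_injective
      (MvPolynomial.funext_set (fun i => {t | w.N (t - z i) < w.N a}) (fun i => ?_) fun y hy => ?_))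
    · refine Set.infinite_of_injective_forall_mem (f := fun n : ℕ => z i + b * n)
        (fun m n e => by simpa [b0] using e) fun n => ?_
      simp only [Set.mem_ofPred_eq, add_sub_cancel_left, map_mul]
      exact (mul_le_of_le_one_right (w.N.nonneg _) (w.nat_le_one n)).trans_lt hb
    · rw [eval_map_ev, hc y fun i => hy i trivial, map_zero, map_zero]
  obtain ⟨s, -, h1, h2⟩ := hh y hyh
  have h3 : ∀ i, w.N (Function.update y o 1 i - z i) < w.N a := fun i => by
    by_cases hi : i = o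
    · simpa [hi, z0] using a0
    · simpa [hi] using hy i
  have h4 : ∀ i, w.N (Function.update y o 1 i) ≤ 1 := fun i => by
    simpa using w.add_le_of ((h3 i).le.trans a1) (hz i)
  have h5 := lip (v := 0) (v' := 0) (w.N.pos a0) F hz (by simp) h4 (by simp) h3 (by simp [a0]) 0
  simp only [coeff_zero_eq_eval_zero, eval_lineP, mul_zero, add_zero, hz0, sub_zero, h1,
    map_mul] at h5
  obtain ⟨τ, hτ, h6⟩ := near_root w s 0 zero_le_one (by
    rw [one_pow]; exact (mul_lt_iff_lt_one_right (w.N.pos a0)).1 h5)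
  obtain ⟨v, q, c, hf⟩ := h2 τ hτ
  obtain ⟨ε, hε, v', hg⟩ := hf.good (w := w) hd (by simp [hu]) fun i =>
    w.add_le_of (h4 i) (w.mul_le_one (w.int_le_one _) (by simpa using h6.le))
  have key : ∀ (x : ι → Qb), x o ∈ Ksolv → ∃ x' : ι → Qb, x' o = x o ∧ (∀ i, x' i ∈ Ksolv) ∧
      ∀ i, w.N (x' i - x i) < ε := fun x hx => by
    choose x' h7 h8 using fun i => dense radCl_Ksolv w (x i) hε
    refine ⟨Function.update x' o (x o), by simp, fun i => ?_, fun i => ?_⟩ <;>
      by_cases hi : i = o <;> simp [hi, hx, h7, hε, w.N.map_sub (x' _), h8]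
  obtain ⟨x₁, e1, e2, e3⟩ := key (fun i => Function.update y o 1 i + u i * τ) (by simp [hu])
  obtain ⟨v₁, e4, e5, e6⟩ := key v' (hg.v0 ▸ Ksolv.zero_mem)
  exact ⟨ε, hε, x₁, v₁, e2, e5, hg.near hε (e1.trans hg.x0) (e4.trans hg.v0) e3 e6⟩

omit [Fintype ι] [DecidableEq ι] in
lemma exists_conj {w w' : Place} (h : w.p = w'.p) :
    ∃ σ : Qb →ₐ[ℚ] Qb, ∀ y, w'.N (σ y) = w.N y := by
  obtain ⟨p, hp, e⟩ := w
  obtain ⟨q, hq, e'⟩ := w'
  obtain rfl : p = q := h
  have : Fact p.Prime := ⟨hp⟩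
  let _ : Algebra Qb (PadicAlgCl p) := e'.toAlgebra
  have : IsScalarTower ℚ Qb (PadicAlgCl p) :=
    IsScalarTower.of_algebraMap_eq' (RingHom.ext_rat _ _)
  exact ⟨e.toRatAlgHom.restrictNormal Qb, fun y =>
    congrArg norm (e.toRatAlgHom.restrictNormal_commutes Qb y)⟩

lemma exists_normal {s : Set Qb} (hs : s.Finite) (h : s ⊆ Ksolv) : ∃ E : IntermediateField ℚ Qb,
    FiniteDimensional ℚ E ∧ E ≤ Ksolv ∧ ∀ y ∈ s, ∀ σ : Qb →ₐ[ℚ] Qb, σ y ∈ E := by
  obtain ⟨E, h1, h2, h3⟩ := exists_fin (K := Ksolv)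
    (s := ⋃ y ∈ s, Set.range fun σ : Qb →ₐ[ℚ] Qb => σ y) (hs.biUnion fun y _ =>
      ((minpoly ℚ y).rootSet_finite Qb).subset (by
        rintro _ ⟨σ, rfl⟩
        rw [mem_rootSet_of_ne (minpoly.ne_zero (Algebra.IsIntegral.isIntegral y)), aeval_algHom_apply,
          minpoly.aeval, map_zero]))
    (Set.iUnion₂_subset fun y hy => by
      rintro _ ⟨σ, rfl⟩
      obtain ⟨L, a, b, c, e⟩ := (mem_solvField_iff y).1 (h hy)
      exact (mem_solvField_iff _).2 ⟨L, a, b, c,
        IntermediateField.normal_iff_forall_map_le.1 inferInstance σ ⟨y, e, rfl⟩⟩)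
  exact ⟨E, h1, h2, fun y hy σ => h3 (Set.mem_biUnion hy ⟨σ, rfl⟩)⟩

omit [Fintype ι] in
lemma approx {E : IntermediateField ℚ Qb} [FiniteDimensional ℚ E] (hE : E ≤ Ksolv) (B : ℕ)
    (f : Place → ι → Qb) (hf : ∀ w i, f w i ∈ E) (inv : ∀ w w', Eqv E w w' → f w = f w') {ε : ℝ}
    (hε : 0 < ε) {a : ℤ} (h0 : ∀ w, w.p ≤ B → f w o = a) : ∃ y : ι → Qb, y o = a ∧
      (∀ i, y i ∈ Ksolv) ∧ (∀ w : Place, w.p ≤ B → ∀ i, w.N (y i - f w i) < ε) ∧
      ∀ w : Place, B < w.p → ∀ i, w.N (y i) ≤ 1 := by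
  choose a' h1 h2 using fun i => weak_approx E B (f · i) (hf · i) hε
  choose y h3 h4 h5 using fun i => strong_approx radCl_Ksolv (hE (h1 i)) hε B [0] (by simp) (by simp)
  refine ⟨Function.update y o a, by simp, fun i => ?_, fun w hw i => ?_, fun w hw i => ?_⟩ <;>
    by_cases hi : i = o
  · simp [hi]
  · simp [hi, h3]
  · simp [hi, h0 w hw, hε]
  · obtain ⟨w', e, h6⟩ := h2 i w hw
    simpa [hi, inv w w' e] using w.add_lt_of (h4 i w hw) h6
  · simpa [hi] using w.int_le_one a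
  · simpa [hi] using (h5 i w hw 0 (by simp)).le

omit [DecidableEq ι] in
lemma uniform_good (B : ℕ) (h : ∀ w : Place, ∃ ε > 0, ∃ x v : ι → Qb, (∀ i, x i ∈ Ksolv) ∧
    (∀ i, v i ∈ Ksolv) ∧ Good F d o w ε x v) : ∃ ε > 0, ∃ E : IntermediateField ℚ Qb,
    FiniteDimensional ℚ E ∧ E ≤ Ksolv ∧ ∃ x v : Place → ι → Qb, (∀ w i, x w i ∈ E) ∧
      (∀ w i, v w i ∈ E) ∧ (∀ w w', Eqv E w w' → x w = x w' ∧ v w = v w') ∧
      ∀ w, w.p ≤ B → Good F d o w ε (x w) (v w) := by
  have h1 : ∀ p : ℕ, ∃ ε > 0, ∃ x v : ι → Qb, (∀ i, x i ∈ Ksolv) ∧ (∀ i, v i ∈ Ksolv) ∧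
      ∀ w : Place, w.p = p → ∃ σ : Qb →ₐ[ℚ] Qb,
        Good F d o w ε (fun i => σ (x i)) fun i => σ (v i) := fun p => by
    by_cases hp : ∃ w : Place, w.p = p
    · obtain ⟨w, rfl⟩ := hp
      obtain ⟨ε, hε, x, v, hx, hv, hg⟩ := h w
      refine ⟨ε, hε, x, v, hx, hv, fun w' e => ?_⟩
      obtain ⟨σ, hσ⟩ := exists_conj e.symm
      exact ⟨σ, hg.congr σ.toRingHom ⊤ (by simp) (by simp) fun y _ => hσ y⟩
    · exact ⟨1, one_pos, 0, 0, by simp, by simp, fun w e => (hp ⟨w, e⟩).elim⟩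
  choose ε hε x v hx hv hg using h1
  obtain ⟨p₀, -, hp⟩ := (Finset.range (B + 1)).exists_min_image ε (by simp)
  obtain ⟨E, h2, h3, h4⟩ := exists_normal
    (s := ⋃ p ∈ Set.Iic B, Set.range (x p) ∪ Set.range (v p))
    ((Set.finite_Iic B).biUnion fun p _ => (Set.finite_range _).union (Set.finite_range _))
    (Set.iUnion₂_subset fun p _ => Set.union_subset (Set.range_subset_iff.2 (hx p))
      (Set.range_subset_iff.2 (hv p)))
  let P : Place → (ι → Qb) × (ι → Qb) → Prop := fun w z => (∀ i, z.1 i ∈ E) ∧ (∀ i, z.2 i ∈ E) ∧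
    (w.p ≤ B → Good F d o w (ε p₀) z.1 z.2)
  have h5 : ∀ w, P w (Classical.epsilon (P w)) := fun w => Classical.epsilon_spec (by
    by_cases hw : w.p ≤ B
    · obtain ⟨σ, e⟩ := hg _ w rfl
      exact ⟨(_, _), fun i => h4 _ (Set.mem_biUnion hw (.inl ⟨i, rfl⟩)) σ,
        fun i => h4 _ (Set.mem_biUnion hw (.inr ⟨i, rfl⟩)) σ, fun _ => { e with
          top := (hp _ (Finset.mem_range.2 (Nat.lt_succ_of_le hw))).trans e.top }⟩
    · exact ⟨0, by simp, by simp, fun h => (hw h).elim⟩)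
  have h6 : ∀ w w', Eqv E w w' → ∀ z, P w z → P w' z := fun w w' e z hz =>
    ⟨hz.1, hz.2.1, fun hw => (hz.2.2 (e.p_eq ▸ hw)).congr (RingHom.id _) E.toSubring hz.1 hz.2.1
      fun y hy => (e y hy).symm⟩
  refine ⟨_, hε p₀, E, h2, h3, fun w => (Classical.epsilon (P w)).1,
    fun w => (Classical.epsilon (P w)).2, fun w => (h5 w).1, fun w => (h5 w).2.1,
    fun w w' e => ?_, fun w => (h5 w).2.2⟩
  simp only [show P w = P w' from funext fun z => propext ⟨h6 _ _ e z, h6 _ _ e.symm z⟩, and_self]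

theorem exists_zero (hF : F.IsHomogeneous d) (hd : 2 ≤ d) (hd4 : d ≤ 4) (hn : d < Fintype.card ι)
    (hs : Sm F Qb) (h : ∀ m : ℤ, (∀ s, s ≠ Finsupp.single o d → m ∣ F.coeff s) →
      m ∣ F.coeff (Finsupp.single o d)) :
    ∃ x : ι → Qb, (∀ i, x i ∈ Zsolv) ∧ x o = 1 ∧ ev x F = 0 := by
  classical
  have hd1 : 1 ≤ d := by omega
  obtain ⟨u, hu, ha⟩ := exists_dir hF hd hn hs o
  set B := (ev u F).natAbs
  obtain ⟨ε, hε, E, _, hE, x₀, v₀, hx₀, hv₀, inv, hg⟩ := uniform_good (F := F) (d := d) (o := o) B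
    fun w => by
      obtain ⟨z, h1, h2, h3⟩ := local_zero w hF hu hd1 ha h
      exact local_good w hF hd1 hn hs hu ha h1 h2 h3
  obtain ⟨x, x0, xK, x1, x2⟩ := approx (o := o) hE B x₀ hx₀ (fun w w' e => (inv w w' e).1) hε
    (a := 1) fun w hw => by simpa using (hg w hw).x0
  obtain ⟨v', v0, vK, v1, v2⟩ := approx (o := o) hE B v₀ hv₀ (fun w w' e => (inv w w' e).2) hε
    (a := 0) fun w hw => by simpa using (hg w hw).v0
  set ψ := lineP F v' fun i => (u i : Qb)
  have e1 : ψ.coeff d = (ev u F : ℤ) :=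
    (lineP_top hF _ _).2.trans (map_ev (Int.castRingHom Qb) u F).symm
  have e2 : ψ.coeff d ≠ 0 := by rw [e1]; exact_mod_cast ha
  have e3 : ∀ w : Place, B < w.p → w.N (ψ.coeff d) = 1 := fun w hw => by
    rw [e1]
    exact w.N_int_eq_one fun h => absurd (Nat.le_of_dvd (Int.natAbs_pos.2 ha)
      (Int.natCast_dvd.1 h)) (not_le.2 hw)
  obtain ⟨s, sK, s1, s2⟩ := strong_approx radCl_Ksolv Ksolv.zero_mem hε B (0 :: ψ.roots.toList)
    (by
      simp only [List.mem_cons, Multiset.mem_toList, forall_eq_or_imp]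
      exact ⟨Ksolv.zero_mem, fun r hr => root_mem radCl_Ksolv (coeff_mem Ksolv.toSubring F vK
        fun i => intCast_mem Ksolv _) hd4 (lineP_top hF _ _).1 e2 (isRoot_of_mem_roots hr)⟩)
    (by
      simp only [List.mem_cons, Multiset.mem_toList, forall_eq_or_imp]
      exact ⟨by simp, fun r hr w hw => root_le (lineP_top hF _ _).1 e2 (fun j _ => e3 w hw ▸
        coeff_mem w.ball F (v2 w hw) (fun i => w.int_le_one _) j) (isRoot_of_mem_roots hr)⟩)
  set v : ι → Qb := fun i => v' i + u i * s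
  have vo : v o = 0 := by simp [v, v0, hu]
  have key : ∀ w : Place, (∀ i, w.N (x i) ≤ 1) ∧ (∀ i, w.N (v i) ≤ 1) ∧
      (lineP F x v).coeff d ≠ 0 ∧
      ∀ j < d, w.N ((lineP F x v).coeff j) ≤ w.N ((lineP F x v).coeff d) := fun w => by
    rcases le_or_gt w.p B with hw | hw
    · have := (hg w hw).near hε (x' := x) (v' := v) (by simpa using x0) vo (x1 w hw) fun i => by
        rw [show v i - v₀ w i = v' i - v₀ w i + u i * (s - 0) by simp only [v]; ring]
        refine w.add_lt_of (v1 w hw i) ?_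
        rw [map_mul]
        exact (mul_le_of_le_one_left (w.N.nonneg _) (w.int_le_one _)).trans_lt (s1 w hw)
      exact ⟨this.xi, this.vi, w.N.pos_iff.1 (hε.trans_le this.top), fun j hj => (this.low j hj).le⟩
    · have h1 : ∀ i, w.N (v i) ≤ 1 := fun i => w.add_le_of (v2 w hw i)
        (w.mul_le_one (w.int_le_one _) (by simpa using (s2 w hw 0 (by simp)).le))
      have h2 : w.N ((lineP F x v).coeff d) = 1 := by
        rw [(lineP_top hF _ _).2, ← eval_lineP, eval_eq_prod, map_mul, leadingCoeff,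
          natDegree_eq_of_le_of_coeff_ne_zero (lineP_top hF _ _).1 e2, e3 w hw, one_mul,
          map_multiset_prod, Multiset.map_map]
        exact Multiset.prod_eq_one fun a ha => by
          obtain ⟨r, hr, rfl⟩ := Multiset.mem_map.1 ha
          exact s2 w hw r (List.mem_cons_of_mem _ (Multiset.mem_toList.2 hr))
      exact ⟨x2 w hw, h1, w.N.pos_iff.1 (h2 ▸ one_pos),
        fun j _ => h2 ▸ coeff_mem w.ball F (x2 w hw) h1 j⟩
  have e4 := (key (Classical.arbitrary _)).2.2.1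
  have hvK : ∀ i, v i ∈ Ksolv := fun i =>
    Ksolv.add_mem (vK i) (Ksolv.mul_mem (intCast_mem Ksolv _) sK)
  obtain ⟨t, ht⟩ := IsAlgClosed.exists_root (lineP F x v) (fun h => by
    have := natDegree_eq_of_le_of_coeff_ne_zero (lineP_top hF x v).1 e4
    rw [natDegree_eq_zero_iff_degree_le_zero.2 h.le] at this
    omega)
  have tK := root_mem radCl_Ksolv (coeff_mem Ksolv.toSubring F xK hvK) hd4 (lineP_top hF _ _).1 e4 ht
  exact ⟨fun i => x i + v i * t, fun i => mem_Zsolv.2 ⟨Ksolv.add_mem (xK i) (Ksolv.mul_mem (hvK i) tK),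
    fun w => w.add_le_of ((key w).1 i) (w.mul_le_one ((key w).2.1 i)
      (root_le (lineP_top hF _ _).1 e4 (key w).2.2.2 ht))⟩, by simp [x0, vo],
    (eval_lineP _ _ _ _).symm.trans ht⟩

omit [Fintype ι] in
theorem dvd_of_zero {x : ι → Qb} (hx : ∀ i, x i ∈ Zsolv) (x0 : x o = 1) (h : ev x F = 0) {m : ℤ}
    (hm : ∀ s, s ≠ Finsupp.single o d → m ∣ F.coeff s) : m ∣ F.coeff (Finsupp.single o d) := by
  set c := F.coeff (Finsupp.single o d)
  obtain ⟨G, hG⟩ := (MvPolynomial.C_dvd_iff_dvd_coeff m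
    (F - MvPolynomial.monomial (Finsupp.single o d) c)).2 fun s => by
      rw [MvPolynomial.coeff_sub, MvPolynomial.coeff_monomial]
      by_cases e : s = Finsupp.single o d
      · simp [e, c]
      · simpa [Ne.symm e] using hm s e
  have h1 := congrArg (ev x) hG
  rw [map_sub, h, ← MvPolynomial.C_mul_X_pow_eq_monomial] at h1
  simp only [map_mul, map_pow, ev_X, x0, eq_intCast, map_intCast, one_pow, mul_one, zero_sub] at h1
  rcases eq_or_ne m 0 with rfl | m0
  · have : (c : Qb) = 0 := by simpa using h1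
    rw [show c = 0 by exact_mod_cast this]
  have h2 : IsIntegral ℤ (algebraMap ℚ Qb (-c / m)) := by
    have : (m : Qb) ≠ 0 := by exact_mod_cast m0
    rw [show algebraMap ℚ Qb (-c / m) = ev x G by simp [h1, this]]
    exact integral_of_le_one fun w => ev_mem w.ball G fun i => (mem_Zsolv.1 (hx i)).2 w
  obtain ⟨n, hn⟩ := IsIntegrallyClosed.isIntegral_iff.1
    ((isIntegral_algebraMap_iff (algebraMap ℚ Qb).injective).1 h2)
  rw [eq_intCast, eq_div_iff (by exact_mod_cast m0)] at hn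
  exact ⟨-n, by have : n * m = -c := by exact_mod_cast hn
                linarith⟩

end Pool.Agent.Lib.ZS
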