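import Pool.Agent.Lib.ZS.Dense

/-! Equations of degree at most four over a radically closed field. -/

namespace Pool.Agent.Lib.ZS

open Polynomial Pool.Agent.Lib.MP_7610b6_lc

variable {K : IntermediateField ℚ Qb}

lemma mem_of_mul {c r : Qb} (hc : c ∈ K) (h0 : c ≠ 0) (h : c * r ∈ K) : r ∈ K := by
  simpa [h0] using K.mul_mem (K.inv_mem hc) h

lemma quad_mem (hK : RadCl K) {r b c : Qb} (hb : b ∈ K) (hc : c ∈ K) (h : r ^ 2 + b * r + c = 0) :
    r ∈ K := by
  have h1 : 2 * r + b ∈ K := hK _ 2 two_ne_zero (by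
    rw [show (2 * r + b) ^ 2 = b ^ 2 - 4 * c by linear_combination 4 * h]
    exact K.sub_mem (pow_mem hb _) (K.mul_mem (ofNat_mem K 4) hc))
  exact mem_of_mul (ofNat_mem K 2) two_ne_zero (by simpa using K.sub_mem h1 hb)

lemma exists_quad (b c : Qb) : ∃ u : Qb, u ^ 2 + b * u + c = 0 := by
  obtain ⟨s, hs⟩ := IsAlgClosed.exists_pow_nat_eq (b ^ 2 - 4 * c) two_pos
  exact ⟨(s - b) / 2, by linear_combination (1 / 4 : Qb) * hs⟩

lemma cubic_mem (hK : RadCl K) {r a b c : Qb} (ha : a ∈ K) (hb : b ∈ K) (hc : c ∈ K)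
    (h : r ^ 3 + a * r ^ 2 + b * r + c = 0) : r ∈ K := by
  have h3 : (3 : Qb) ∈ K := ofNat_mem K 3
  set s := r + a / 3 with hs
  set p := b - a ^ 2 / 3 with hp
  set q := c - a * b / 3 + 2 * (a / 3) ^ 3 with hq
  have hpK : p ∈ K := K.sub_mem hb (K.div_mem (pow_mem ha _) h3)
  have hqK : q ∈ K := K.add_mem (K.sub_mem hc (K.div_mem (K.mul_mem ha hb) h3))
    (K.mul_mem (ofNat_mem K 2) (pow_mem (K.div_mem ha h3) _))
  have h1 : s ^ 3 + p * s + q = 0 := by rw [hs, hp, hq]; linear_combination h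
  have key : ∀ u : Qb, u ^ 2 + -s * u + -p / 3 = 0 → u ∈ K := fun u hu =>
    hK u 3 three_ne_zero (quad_mem hK hqK (K.neg_mem (pow_mem (K.div_mem hpK h3) 3)) (by
      linear_combination (u ^ 4 + s * u ^ 3 + (s ^ 2 + p / 3) * u ^ 2 - s * p / 3 * u +
        p ^ 2 / 9) * hu + u ^ 3 * h1))
  obtain ⟨u, hu⟩ := exists_quad (-s) (-p / 3)
  have := K.add_mem (key u hu) (key (s - u) (by linear_combination hu))
  simpa [hs] using K.sub_mem this (K.div_mem ha h3)

lemma quartic_mem (hK : RadCl K) {r a b c d : Qb} (ha : a ∈ K) (hb : b ∈ K) (hc : c ∈ K)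
    (hd : d ∈ K) (h : r ^ 4 + a * r ^ 3 + b * r ^ 2 + c * r + d = 0) : r ∈ K := by
  have h2 : (2 : Qb) ∈ K := ofNat_mem K 2
  set e := a / 4 with he
  have heK : e ∈ K := K.div_mem ha (ofNat_mem K 4)
  set s := r + e with hs
  set p := b - 6 * e ^ 2 with hp
  set q := c - 2 * b * e + 8 * e ^ 3 with hq
  set t := d - c * e + b * e ^ 2 - 3 * e ^ 4 with ht
  have hpK : p ∈ K := K.sub_mem hb (K.mul_mem (ofNat_mem K 6) (pow_mem heK _))
  have hqK : q ∈ K := K.add_mem (K.sub_mem hc (K.mul_mem (K.mul_mem h2 hb) heK))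
    (K.mul_mem (ofNat_mem K 8) (pow_mem heK _))
  have htK : t ∈ K := K.sub_mem (K.add_mem (K.sub_mem hd (K.mul_mem hc heK))
    (K.mul_mem hb (pow_mem heK _))) (K.mul_mem (ofNat_mem K 3) (pow_mem heK _))
  have h1 : s ^ 4 + p * s ^ 2 + q * s + t = 0 := by
    rw [hs, hp, hq, ht, he]; linear_combination h
  suffices s ∈ K by simpa [hs] using K.sub_mem this heK
  obtain ⟨m, hm⟩ := IsAlgClosed.exists_root
    (X ^ 3 + C (-p / 2) * X ^ 2 + C (-t) * X + C (p * t / 2 - q ^ 2 / 8) : Qb[X])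
    (by rw [show degree _ = 3 by compute_degree!]; norm_num)
  simp only [IsRoot, eval_add, eval_mul, eval_pow, eval_X, eval_C] at hm
  have hmK : m ∈ K := cubic_mem hK (K.div_mem (K.neg_mem hpK) h2) (K.neg_mem htK)
    (K.sub_mem (K.div_mem (K.mul_mem hpK htK) h2) (K.div_mem (pow_mem hqK _) (ofNat_mem K 8))) hm
  obtain ⟨α, hα, e1⟩ := hK.root (K.sub_mem (K.mul_mem h2 hmK) hpK) two_ne_zero
  by_cases h0 : α = 0
  · have e2 : q ^ 2 = 0 := by
      rw [h0] at e1
      linear_combination (-8) * hm - 4 * (m ^ 2 - t) * e1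
    rw [pow_eq_zero_iff two_ne_zero] at e2
    exact hK s 2 two_ne_zero (quad_mem hK hpK htK (by rw [e2] at h1; linear_combination h1))
  · set β := q / (2 * α) with hβ
    have hβK : β ∈ K := K.div_mem hqK (K.mul_mem h2 hα)
    have e2 : 2 * α * β = q := by rw [hβ]; field_simp
    have e3 : β ^ 2 = m ^ 2 - t := mul_left_cancel₀
      (mul_ne_zero (by norm_num : (4 : Qb) ≠ 0) (pow_ne_zero 2 h0))
      (by linear_combination (2 * α * β + q) * e2 - 8 * hm - 4 * (m ^ 2 - t) * e1)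
    have e4 : (s ^ 2 + α * s + (m - β)) * (s ^ 2 + -α * s + (m + β)) = 0 := by
      linear_combination h1 - s ^ 2 * e1 + s * e2 - e3
    rcases mul_eq_zero.1 e4 with e | e
    · exact quad_mem hK hα (K.sub_mem hmK hβK) e
    · exact quad_mem hK (K.neg_mem hα) (K.add_mem hmK hβK) e

theorem root_mem (hK : RadCl K) {f : Qb[X]} (hf : ∀ j, f.coeff j ∈ K) {d : ℕ} (hd : d ≤ 4)
    (hn : f.natDegree ≤ d) (h0 : f.coeff d ≠ 0) {r : Qb} (hr : f.eval r = 0) : r ∈ K := by
  rw [eval_eq_sum_range' (Nat.lt_succ_of_le hn)] at hr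
  have hq : ∀ j, f.coeff j / f.coeff d ∈ K := fun j => K.div_mem (hf j) (hf d)
  have h1 : r ^ (4 - d) * (∑ j ∈ Finset.range (d + 1), f.coeff j * r ^ j) / f.coeff d = 0 := by
    rw [hr, mul_zero, zero_div]
  interval_cases d <;> simp only [Finset.sum_range_succ, Finset.sum_range_zero] at h1
  · exact quartic_mem hK K.zero_mem K.zero_mem K.zero_mem K.zero_mem
      (.trans (by field_simp; ring) h1)
  · exact quartic_mem hK (hq 0) K.zero_mem K.zero_mem K.zero_mem (.trans (by field_simp; ring) h1)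
  · exact quartic_mem hK (hq 1) (hq 0) K.zero_mem K.zero_mem (.trans (by field_simp; ring) h1)
  · exact quartic_mem hK (hq 2) (hq 1) (hq 0) K.zero_mem (.trans (by field_simp; ring) h1)
  · exact quartic_mem hK (hq 3) (hq 2) (hq 1) (hq 0) (.trans (by field_simp; ring) h1)

end Pool.Agent.Lib.ZS
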