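import Pool.Agent.Lib.ZS.Gen
import Pool.Agent.Lib.ZS.Rad

/-! Lines on which a form has only integral roots: the local construction. -/

namespace Pool.Agent.Lib.ZS

open Polynomial Pool.Agent.Lib.MP_7610b6_lc

variable {ι : Type} {F : MvPolynomial ι ℤ} {d : ℕ} {o : ι} {w : Place} {x v : ι → Qb}

lemma coeff_lift (V : Subring Qb) (F : MvPolynomial ι ℤ) (hx : ∀ i, x i ∈ V) (hv : ∀ i, v i ∈ V)
    (j : ℕ) : (lineP F x v).coeff j =
      ((lineP F (fun i => (⟨x i, hx i⟩ : V)) fun i => ⟨v i, hv i⟩).coeff j : V) :=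
  (congrArg (coeff · j) (map_lineP V.subtype F (fun i => ⟨x i, hx i⟩) fun i => ⟨v i, hv i⟩)).symm.trans
    (coeff_map _ _)

lemma coeff_mem (V : Subring Qb) (F : MvPolynomial ι ℤ) (hx : ∀ i, x i ∈ V) (hv : ∀ i, v i ∈ V)
    (j : ℕ) : (lineP F x v).coeff j ∈ V := coeff_lift V F hx hv j ▸ Subtype.property _

lemma ev_mem (V : Subring Qb) (F : MvPolynomial ι ℤ) (hx : ∀ i, x i ∈ V) : ev x F ∈ V :=
  map_ev V.subtype (fun i => ⟨x i, hx i⟩) F ▸ Subtype.property _

/-- The open ball of radius `ε` as an ideal. -/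
def ballI (w : Place) {ε : ℝ} (hε : 0 < ε) : Ideal w.ball where
  carrier := {a | w.N a < ε}
  add_mem' := fun ha hb => w.add_lt_of ha hb
  zero_mem' := by simpa using hε
  smul_mem' := fun c a ha => by
    change w.N (c * a) < ε
    rw [map_mul]
    exact (mul_le_of_le_one_left (w.N.nonneg _) c.2).trans_lt ha

lemma lip {ε : ℝ} (hε : 0 < ε) (F : MvPolynomial ι ℤ) {x' v' : ι → Qb} (hx : ∀ i, w.N (x i) ≤ 1)
    (hv : ∀ i, w.N (v i) ≤ 1) (hx' : ∀ i, w.N (x' i) ≤ 1) (hv' : ∀ i, w.N (v' i) ≤ 1)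
    (h1 : ∀ i, w.N (x' i - x i) < ε) (h2 : ∀ i, w.N (v' i - v i) < ε) (j : ℕ) :
    w.N ((lineP F x' v').coeff j - (lineP F x v).coeff j) < ε := by
  rw [coeff_lift w.ball F hx hv, coeff_lift w.ball F hx' hv']
  refine (Ideal.Quotient.eq (I := ballI w hε)).1 ?_
  rw [← coeff_map, ← coeff_map, map_lineP, map_lineP]
  congr 2 <;> funext i
  · exact Ideal.Quotient.eq.2 (h1 i)
  · exact Ideal.Quotient.eq.2 (h2 i)

lemma root_le {f : Qb[X]} (hn : f.natDegree ≤ d) (h0 : f.coeff d ≠ 0)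
    (h : ∀ j < d, w.N (f.coeff j) ≤ w.N (f.coeff d)) {r : Qb} (hr : f.eval r = 0) : w.N r ≤ 1 := by
  by_contra! hc
  rw [eval_eq_sum_range' (Nat.lt_succ_of_le hn), Finset.sum_range_succ] at hr
  have h1 := w.N.pos h0
  have h2 : 0 < w.N (f.coeff d * r ^ d) := by rw [map_mul, map_pow]; positivity
  have := w.add_eq_right (w.sum_lt (Finset.range d) (fun j => f.coeff j * r ^ j) h2 fun j hj => by
    rw [map_mul, map_mul, map_pow, map_pow]
    exact mul_lt_mul' (h j (Finset.mem_range.1 hj)) (pow_lt_pow_right₀ hc (Finset.mem_range.1 hj))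
      (by positivity) h1)
  rw [hr, map_zero] at this
  exact h2.ne this

lemma newton {f : Qb[X]} (h0 : f.eval 1 - f.eval 0 ≠ 0)
    (h : w.N (f.eval 0) ≤ w.N (f.eval 1 - f.eval 0)) : ∃ r, w.N r ≤ 1 ∧ f.eval r = 0 := by
  by_contra! hc
  have key : ∀ s : Multiset Qb, (∀ r ∈ s, 1 < w.N r) →
      w.N ((s.map (1 - ·)).prod - (s.map (0 - ·)).prod) < w.N (s.map (0 - ·)).prod := fun s => by
    induction s using Multiset.induction_on with
    | empty => simp
    | cons a s ih =>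
      intro hs
      have h1 := ih fun r hr => hs r (by simp [hr])
      have h2 := hs a (by simp)
      have h3 := (w.N.nonneg _).trans_lt h1
      rw [Multiset.map_cons, Multiset.map_cons, Multiset.prod_cons, Multiset.prod_cons,
        show ∀ P Q : Qb, (1 - a) * P - (0 - a) * Q = (1 - a) * (P - Q) + Q from fun _ _ => by ring,
        map_mul, zero_sub, w.N.map_neg]
      refine w.add_lt_of ?_ (lt_mul_of_one_lt_left h3 h2)
      rw [map_mul, w.sub_eq_right (by simpa using h2)]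
      exact mul_lt_mul_of_pos_left h1 (one_pos.trans h2)
  have hf : f ≠ 0 := by rintro rfl; simp at h0
  rw [eval_eq_prod f 1, eval_eq_prod f 0, ← mul_sub, map_mul, map_mul] at h
  exact absurd h (not_le.2 (mul_lt_mul_of_pos_left (key _ fun r hr =>
    not_le.1 fun h' => hc r h' (isRoot_of_mem_roots hr)) (w.N.pos (leadingCoeff_ne_zero.2 hf))))

/-- On the line `x + t v` the top coefficient dominates. -/
structure Good (F : MvPolynomial ι ℤ) (d : ℕ) (o : ι) (w : Place) (ε : ℝ) (x v : ι → Qb) :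
    Prop where
  x0 : x o = 1
  v0 : v o = 0
  xi : ∀ i, w.N (x i) ≤ 1
  vi : ∀ i, w.N (v i) ≤ 1
  top : ε ≤ w.N ((lineP F x v).coeff d)
  low : ∀ j < d, w.N ((lineP F x v).coeff j) < w.N ((lineP F x v).coeff d)

lemma Good.near {ε : ℝ} (hε : 0 < ε) (h : Good F d o w ε x v) {x' v' : ι → Qb} (x0 : x' o = 1)
    (v0 : v' o = 0) (h1 : ∀ i, w.N (x' i - x i) < ε) (h2 : ∀ i, w.N (v' i - v i) < ε) :
    Good F d o w ε x' v' := by
  have e1 : ε ≤ 1 := h.top.trans (coeff_mem w.ball F h.xi h.vi d)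
  have hx : ∀ i, w.N (x' i) ≤ 1 := fun i => by
    simpa using w.add_le_of ((h1 i).le.trans e1) (h.xi i)
  have hv : ∀ i, w.N (v' i) ≤ 1 := fun i => by
    simpa using w.add_le_of ((h2 i).le.trans e1) (h.vi i)
  have key := fun j => (lip hε F h.xi h.vi hx hv h1 h2 j).trans_le h.top
  have e : w.N ((lineP F x' v').coeff d) = w.N ((lineP F x v).coeff d) := by
    simpa using w.add_eq_right (key d)
  exact ⟨x0, v0, hx, hv, e ▸ h.top, fun j hj => by
    rw [e]; simpa using w.add_lt_of (key j) (h.low j hj)⟩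

lemma Good.congr {ε : ℝ} (h : Good F d o w ε x v) {w' : Place} (σ : Qb →+* Qb) (V : Subring Qb)
    (hx : ∀ i, x i ∈ V) (hv : ∀ i, v i ∈ V) (e : ∀ y ∈ V, w'.N (σ y) = w.N y) :
    Good F d o w' ε (fun i => σ (x i)) fun i => σ (v i) := by
  have key : ∀ j, w'.N ((lineP F (fun i => σ (x i)) fun i => σ (v i)).coeff j) =
      w.N ((lineP F x v).coeff j) := fun j => by
    rw [← map_lineP, coeff_map, e _ (coeff_mem V F hx hv j)]
  exact ⟨by simp [h.x0], by simp [h.v0], fun i => (e _ (hx i)).trans_le (h.xi i),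
    fun i => (e _ (hv i)).trans_le (h.vi i), (key d).symm ▸ h.top, fun j hj => by
      rw [key, key]; exact h.low j hj⟩

lemma exists_small (w : Place) {ε : ℝ} (hε : 0 < ε) : ∃ a : Qb, a ≠ 0 ∧ w.N a < ε := by
  obtain ⟨n, hn⟩ := exists_pow_lt_of_lt_one hε w.N_p_lt_one
  exact ⟨w.p ^ n, pow_ne_zero _ (w.N.pos_iff.1 w.N_p_pos), by rwa [map_pow]⟩

variable [Fintype ι]

lemma taylor {S : Type*} [CommRing S] (F : MvPolynomial ι ℤ) (z h : ι → S) (e : S) : ∃ k,
    ev (fun i => z i + h i * e) F =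
      ev z F + (∑ i, ev z (MvPolynomial.pderiv i F) * h i) * e + k * e ^ 2 := by
  obtain ⟨k, hk⟩ := binomExpansion (lineP F z h) 0 e
  exact ⟨k, by simpa [derivative_lineP, eval_finsetSum, eval_lineP] using hk⟩

lemma Flex.scale {q : ι → Qb} {c : Fin 4 → Qb} (h : Flex F d o x v q c) (hd : 1 ≤ d) {l : Qb}
    (hl : l ≠ 0) : Flex F d o x (fun i => v i * l) (fun i => q i * l)
      ![c 0 * l ^ d, c 1 * l ^ d, c 2 / l ^ d, c 3 / l ^ d] := by
  have key : ∀ G, lineP G x (fun i => v i * l) = (lineP G x v).comp (C l * X) := fun G => by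
    refine Eq.trans ?_ (map_ev (compRingHom (C l * X)) (fun i => C (x i) + C (v i) * X) G).symm
    simp [lineP, mul_assoc]
  refine ⟨by simp [h.v0], by simp [h.q0], ?_, ?_, ?_⟩
  · simp only [Matrix.cons_val]
    rw [← h.one]; field_simp
  · simp [key, h.line, mul_pow, mul_assoc]
  · have := congrArg (fun f => f.comp (C l * X) * C l) h.def1
    simp only [Polynomial.sum_comp, mul_comp, C_comp, Finset.sum_mul, pow_comp, X_comp] at this
    obtain ⟨d, rfl⟩ := Nat.exists_eq_add_of_le' hd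
    simp only [key, map_mul, ← mul_assoc, this, Matrix.cons_val, map_pow, Nat.add_sub_cancel]
    ring

lemma Flex.good {q : ι → Qb} {c : Fin 4 → Qb} (h : Flex F d o x v q c) (hd : 1 ≤ d)
    (x0 : x o = 1) (hx : ∀ i, w.N (x i) ≤ 1) : ∃ ε > 0, ∃ v', Good F d o w ε x v' := by
  wlog hi : (∀ i, w.N (v i) ≤ 1) ∧ ∀ i, w.N (q i) ≤ 1 generalizing v q c
  · obtain ⟨M, hM⟩ := (Set.finite_range fun i => max (w.N (v i)) (w.N (q i))).bddAbove
    obtain ⟨l, hl, h1⟩ := exists_small w (ε := (max M 1)⁻¹) (by positivity)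
    have key : ∀ a, w.N a ≤ M → w.N (a * l) ≤ 1 := fun a ha => by
      rw [map_mul, ← mul_inv_cancel₀ (a := max M 1) (by positivity)]
      exact mul_le_mul (le_max_of_le_left ha) h1.le (w.N.nonneg _) (by positivity)
    exact this (h.scale hd hl) ⟨fun i => key _ ((le_max_left _ _).trans (hM ⟨i, rfl⟩)),
      fun i => key _ ((le_max_right _ _).trans (hM ⟨i, rfl⟩))⟩
  obtain ⟨e, he, h1⟩ : ∃ e, w.N e ≤ 1 ∧ w.N e ^ 2 < w.N (c 0 + c 1 * e) := by
    by_cases h0 : c 0 = 0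
    · have h1 : c 1 ≠ 0 := fun h1 => by simpa [h0, h1] using h.one
      obtain ⟨e, he, h2⟩ := exists_small w (lt_min one_pos (w.N.pos h1))
      refine ⟨e, h2.le.trans (min_le_left _ _), ?_⟩
      rw [h0, zero_add, map_mul, sq]
      exact mul_lt_mul_of_pos_right (h2.trans_le (min_le_right _ _)) (w.N.pos he)
    · exact ⟨0, by simp, by simpa using h0⟩
  obtain ⟨k, hk⟩ := taylor (S := w.ball[X]) F (fun i => C ⟨x i, hx i⟩ + C ⟨v i, hi.1 i⟩ * X)
    (fun i => C ⟨q i, hi.2 i⟩ * X) (C ⟨e, he⟩)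
  have h2 : lineP F x (fun i => v i + q i * e) =
      C (c 0 + c 1 * e) * X ^ d + C (e ^ 2) * k.map w.ball.subtype := by
    have h3 := congrArg (mapRingHom w.ball.subtype) hk
    simp only [map_add, map_mul, map_sum, map_pow, map_ev, coe_mapRingHom, map_C, map_X,
      Subring.subtype_apply, ← mul_assoc, ← Finset.sum_mul] at h3
    change _ = lineP F x v + (∑ i, lineP (MvPolynomial.pderiv i F) x v * C (q i)) * _ * _ + _ at h3
    rw [h.line, h.def1] at h3
    obtain ⟨d, rfl⟩ := Nat.exists_eq_add_of_le' hd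
    simp only [lineP, map_add, map_mul, map_pow, add_mul, ← add_assoc, mul_right_comm _ (C e) X, h3,
      Nat.add_sub_cancel]
    ring
  have h3 : ∀ j, w.N ((C (e ^ 2) * k.map w.ball.subtype).coeff j) < w.N (c 0 + c 1 * e) :=
    fun j => by
      rw [coeff_C_mul, coeff_map, map_mul, map_pow]
      exact (mul_le_of_le_one_right (by positivity) (k.coeff j).2).trans_lt h1
  have h4 : w.N ((lineP F x fun i => v i + q i * e).coeff d) = w.N (c 0 + c 1 * e) := by
    rw [h2, coeff_add, coeff_C_mul_X_pow, if_pos rfl, w.add_eq_left (h3 d)]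
  exact ⟨_, (w.N.nonneg _).trans_lt (h3 0), fun i => v i + q i * e, x0, by simp [h.v0, h.q0], hx,
    fun i => w.add_le_of (hi.1 i) (w.mul_le_one (hi.2 i) he), h4.ge, fun j hj => by
      rw [h4, h2, coeff_add, coeff_C_mul_X_pow, if_neg hj.ne, zero_add]; exact h3 j⟩

end Pool.Agent.Lib.ZS
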